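import Pool.Agent.BrC.Defs

/-! BrC, module Basis: the eigenbasis adapted to the all ones vector. -/

set_option autoImplicit false

namespace Pool.Agent.BrC

open Matrix

variable {σ τ : Type*} [Fintype σ] [Fintype τ] [DecidableEq σ] [DecidableEq τ]

/-- `NN w` has row sums `card σ` -/
theorem NN_one (w : σ → τ → ℝ) : NN w *ᵥ (fun _ => 1) = (Fintype.card σ : ℝ) • (fun _ => (1 : ℝ)) := by
  funext z
  rcases z with i | j
  · rw [NN_inl]
    simp only [Pi.smul_apply, smul_eq_mul, mul_one, Finset.sum_const, Finset.card_univ,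
      nsmul_eq_mul]
    ring
  · rw [NN_inr]
    simp only [Pi.smul_apply, smul_eq_mul, mul_one, Finset.sum_sub_distrib, Finset.sum_const,
      Finset.card_univ, nsmul_eq_mul]
    ring

private theorem NN_quad (w : σ → τ → ℝ) (x : σ ⊕ τ → ℝ) :
    x ⬝ᵥ (NN w *ᵥ x) = (∑ i, x (Sum.inl i)) ^ 2 + Fintype.card σ * (∑ j, x (Sum.inr j) ^ 2)
      - ∑ i, ∑ j, w i j * (x (Sum.inl i) - x (Sum.inr j)) ^ 2 := by
  rw [dotProduct, Fintype.sum_sum_type]
  simp only [NN_inl, NN_inr]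
  have e1 : ∑ i, ∑ j, w i j * (x (Sum.inl i) - x (Sum.inr j)) ^ 2
      = (∑ i, (∑ j, w i j) * x (Sum.inl i) ^ 2) + (∑ j, (∑ i, w i j) * x (Sum.inr j) ^ 2)
        - (∑ i, x (Sum.inl i) * ∑ j, w i j * x (Sum.inr j))
        - (∑ j, x (Sum.inr j) * ∑ i, w i j * x (Sum.inl i)) := by
    have t1 : ∑ j, (∑ i, w i j) * x (Sum.inr j) ^ 2 = ∑ i, ∑ j, w i j * x (Sum.inr j) ^ 2 := by
      rw [Finset.sum_comm]
      exact Finset.sum_congr rfl fun j _ => by rw [Finset.sum_mul]
    have t2 : ∑ j, x (Sum.inr j) * ∑ i, w i j * x (Sum.inl i)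
        = ∑ i, ∑ j, x (Sum.inr j) * (w i j * x (Sum.inl i)) := by
      rw [Finset.sum_comm]
      exact Finset.sum_congr rfl fun j _ => by rw [Finset.mul_sum]
    rw [t1, t2, ← Finset.sum_add_distrib, ← Finset.sum_sub_distrib, ← Finset.sum_sub_distrib]
    refine Finset.sum_congr rfl fun i _ => ?_
    rw [Finset.sum_mul, Finset.mul_sum, ← Finset.sum_add_distrib, ← Finset.sum_sub_distrib,
      ← Finset.sum_sub_distrib]
    exact Finset.sum_congr rfl fun j _ => by ring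
  rw [e1]
  have e2 : ∑ i, x (Sum.inl i) * (∑ i', x (Sum.inl i') - (∑ j, w i j) * x (Sum.inl i)
      + ∑ j, w i j * x (Sum.inr j))
      = (∑ i, x (Sum.inl i)) ^ 2 - (∑ i, (∑ j, w i j) * x (Sum.inl i) ^ 2)
        + ∑ i, x (Sum.inl i) * ∑ j, w i j * x (Sum.inr j) := by
    rw [sq, Finset.sum_mul, ← Finset.sum_sub_distrib, ← Finset.sum_add_distrib]
    exact Finset.sum_congr rfl fun i _ => by ring
  have e3 : ∑ j, x (Sum.inr j) * (∑ i, w i j * x (Sum.inl i) + (∑ i, (1 - w i j)) * x (Sum.inr j))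
      = (∑ j, x (Sum.inr j) * ∑ i, w i j * x (Sum.inl i))
        + Fintype.card σ * (∑ j, x (Sum.inr j) ^ 2) - ∑ j, (∑ i, w i j) * x (Sum.inr j) ^ 2 := by
    rw [Finset.mul_sum, ← Finset.sum_add_distrib, ← Finset.sum_sub_distrib]
    refine Finset.sum_congr rfl fun j _ => ?_
    have : ∑ i, (1 - w i j) = (Fintype.card σ : ℝ) - ∑ i, w i j := by
      rw [Finset.sum_sub_distrib, Finset.sum_const, Finset.card_univ, nsmul_eq_mul, mul_one]
    rw [this]; ring
  rw [e2, e3]; ring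

/-- the Laplacian `card σ - NN w` is positive semidefinite:
`s ∑ x² - xᵀ N x = (s ∑_σ x² - (∑_σ x)²) + ∑_ij w i j (x i - x j)²`. -/
theorem NN_le {w : σ → τ → ℝ} (h0 : ∀ i j, 0 ≤ w i j) (x : σ ⊕ τ → ℝ) :
    x ⬝ᵥ (NN w *ᵥ x) ≤ Fintype.card σ * (x ⬝ᵥ x) := by
  rw [NN_quad]
  have c1 : (∑ i, x (Sum.inl i)) ^ 2 ≤ Fintype.card σ * ∑ i, x (Sum.inl i) ^ 2 := by
    have := sq_sum_le_card_mul_sum_sq (s := (Finset.univ : Finset σ)) (f := fun i => x (Sum.inl i))
    simpa using this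
  have c2 : 0 ≤ ∑ i, ∑ j, w i j * (x (Sum.inl i) - x (Sum.inr j)) ^ 2 :=
    Finset.sum_nonneg fun i _ => Finset.sum_nonneg fun j _ => mul_nonneg (h0 i j) (sq_nonneg _)
  have c3 : x ⬝ᵥ x = ∑ i, x (Sum.inl i) ^ 2 + ∑ j, x (Sum.inr j) ^ 2 := by
    rw [dotProduct, Fintype.sum_sum_type]; simp only [sq]
  rw [c3, mul_add]
  linarith

private theorem sum_NN (w : σ → τ → ℝ) (x : σ ⊕ τ → ℝ) :
    ∑ z, (NN w *ᵥ x) z = Fintype.card σ * ∑ z, x z := by
  have h1 : ∑ z, (NN w *ᵥ x) z = (fun _ => (1 : ℝ)) ⬝ᵥ (NN w *ᵥ x) := by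
    simp [dotProduct]
  rw [h1, Matrix.dotProduct_mulVec, ← Matrix.mulVec_transpose, NN_isSymm, NN_one, smul_dotProduct]
  simp [dotProduct]

/-- Spectral theorem for the symmetric matrix `N' = NN w + J` (`J` all ones); `N' 1 = (s + n) 1`.
For an eigenvector `b` of `N'` with eigenvalue `μ`: `(μ - (s + n)) * ∑ b = 0`. If `μ ≠ s + n`, then
`∑ b = 0` and `NN w b = μ b`. If `μ = s + n`, then NN_le and Cauchy-Schwarz
(`(∑ b)² ≤ n ∑ b²`, equality only for constant vectors) show that `b` is constant. Some `b v0` is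
not orthogonal to `1` (a basis), so it is constant and the others are orthogonal to it. -/
theorem esys [Nonempty (σ ⊕ τ)] {w : σ → τ → ℝ} (h0 : ∀ i j, 0 ≤ w i j) :
    ∃ (v0 : σ ⊕ τ) (x : σ ⊕ τ → σ ⊕ τ → ℝ) (ν : σ ⊕ τ → ℝ), ESys w v0 x ν := by
  classical
  set J : Matrix (σ ⊕ τ) (σ ⊕ τ) ℝ := Matrix.of fun _ _ => (1 : ℝ) with hJ
  have hJv : ∀ y : σ ⊕ τ → ℝ, J *ᵥ y = fun _ => ∑ z, y z := by
    intro y; funext z; simp [hJ, Matrix.mulVec, dotProduct]
  have hH : (NN w + J).IsHermitian := by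
    unfold Matrix.IsHermitian
    rw [Matrix.conjTranspose_eq_transpose_of_trivial, Matrix.transpose_add, NN_isSymm]
    congr 1
  let b := hH.eigenvectorBasis
  let x : σ ⊕ τ → σ ⊕ τ → ℝ := fun v => (b v : σ ⊕ τ → ℝ)
  have hx : ∀ v, (NN w + J) *ᵥ x v = hH.eigenvalues v • x v := fun v =>
    hH.mulVec_eigenvectorBasis v
  have ho : ∀ u v, x u ⬝ᵥ x v = if u = v then 1 else 0 := by
    intro u v
    have := orthonormal_iff_ite.1 b.orthonormal v u
    rw [EuclideanSpace.inner_eq_star_dotProduct] at this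
    simpa [x, eq_comm, dotProduct_comm] using this
  have hN : ∀ v, NN w *ᵥ x v = hH.eigenvalues v • x v - fun _ => ∑ z, x v z := by
    intro v
    rw [← hx v, Matrix.add_mulVec, hJv]; simp
  set n : ℝ := (Fintype.card (σ ⊕ τ) : ℝ) with hn
  set s : ℝ := (Fintype.card σ : ℝ) with hs
  have hnpos : 0 < n := by rw [hn]; exact_mod_cast Fintype.card_pos
  -- nonzero sum implies constant
  have hconst : ∀ v, ∑ z, x v z ≠ 0 → ∃ c : ℝ, c ≠ 0 ∧ x v = fun _ => c := by
    intro v hv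
    have e1 : s * ∑ z, x v z = hH.eigenvalues v * (∑ z, x v z) - n * ∑ z, x v z := by
      rw [← sum_NN w (x v), hN v]
      simp only [Pi.sub_apply, Pi.smul_apply, smul_eq_mul, Finset.sum_sub_distrib,
        Finset.mul_sum, Finset.sum_const, Finset.card_univ, nsmul_eq_mul, hn]
    have e2 : hH.eigenvalues v = s + n := by
      have : (hH.eigenvalues v - (s + n)) * ∑ z, x v z = 0 := by linarith
      rcases mul_eq_zero.1 this with h | h
      · linarith
      · exact absurd h hv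
    have e3 : x v ⬝ᵥ (NN w *ᵥ x v) = (s + n) * 1 - (∑ z, x v z) ^ 2 := by
      rw [hN v, dotProduct_sub, dotProduct_smul, ho v v, if_pos rfl, e2, smul_eq_mul]
      congr 1
      simp only [dotProduct, ← Finset.sum_mul, sq]
    have e4 := NN_le h0 (x v)
    rw [e3, ho v v, if_pos rfl, ← hs] at e4
    -- n ≤ (∑ x)^2
    have e5 : n ≤ (∑ z, x v z) ^ 2 := by linarith
    set m : ℝ := (∑ z, x v z) / n with hm
    have hmn : ∑ z, x v z = n * m := by rw [hm]; field_simp
    have e6 : ∑ z, (x v z - m) ^ 2 = 1 - n * m ^ 2 := by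
      have e7 : ∑ z, (x v z - m) ^ 2 = (x v ⬝ᵥ x v) - 2 * m * (∑ z, x v z) + n * m ^ 2 := by
        have e8 : n * m ^ 2 = ∑ _z : σ ⊕ τ, m ^ 2 := by
          rw [Finset.sum_const, Finset.card_univ, nsmul_eq_mul]
        rw [dotProduct, e8, Finset.mul_sum, ← Finset.sum_sub_distrib, ← Finset.sum_add_distrib]
        exact Finset.sum_congr rfl fun z _ => by ring
      rw [e7, ho v v, if_pos rfl, hmn]; ring
    have e9 : ∑ z, (x v z - m) ^ 2 ≤ 0 := by
      rw [e6]
      rw [hmn] at e5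
      have : 1 ≤ n * m ^ 2 := by
        have h2 : n * 1 ≤ n * (n * m ^ 2) := by nlinarith
        exact le_of_mul_le_mul_left h2 hnpos
      linarith
    have e10 : ∀ z, x v z = m := by
      intro z
      have h1 : ∑ z, (x v z - m) ^ 2 = 0 :=
        le_antisymm e9 (Finset.sum_nonneg fun z _ => sq_nonneg _)
      have h2 := (Finset.sum_eq_zero_iff_of_nonneg (fun z _ => sq_nonneg (x v z - m))).1 h1 z
        (Finset.mem_univ z)
      have h3 := pow_eq_zero_iff (two_ne_zero) |>.1 h2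
      linarith
    refine ⟨m, ?_, funext e10⟩
    intro hm0
    rw [hm0, mul_zero] at hmn
    exact hv hmn
  -- existence of v0
  obtain ⟨v0, hv0⟩ : ∃ v0, ∑ z, x v0 z ≠ 0 := by
    by_contra hcon
    push Not at hcon
    let one : EuclideanSpace ℝ (σ ⊕ τ) := WithLp.toLp 2 (fun _ => (1 : ℝ))
    have h1 : one = 0 := by
      rw [← b.sum_repr' one]
      refine Finset.sum_eq_zero fun v _ => ?_
      have h3 : inner ℝ (b v) one = 0 := by
        rw [EuclideanSpace.inner_eq_star_dotProduct]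
        have h2 := hcon v
        simp only [one, dotProduct]
        simpa [x] using h2
      rw [h3, zero_smul]
    have h2 : (1 : ℝ) = 0 := by
      have z0 : σ ⊕ τ := Classical.arbitrary _
      have := congrArg (fun f : EuclideanSpace ℝ (σ ⊕ τ) => f z0) h1
      simpa [one] using this
    exact one_ne_zero h2
  obtain ⟨c, hc0, hc⟩ := hconst v0 hv0
  have hsum0 : ∀ v, v ≠ v0 → ∑ z, x v z = 0 := by
    intro v hv
    have h1 := ho v v0
    rw [if_neg hv, hc] at h1
    simp only [dotProduct, ← Finset.sum_mul] at h1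
    rcases mul_eq_zero.1 h1 with h | h
    · exact h
    · exact absurd h hc0
  refine ⟨v0, x, fun v => if v = v0 then s else hH.eigenvalues v, ho, hsum0, ?_, by simp [hs]⟩
  intro v
  by_cases hv : v = v0
  · subst hv
    rw [if_pos rfl, hc]
    have h1 : (fun _ : σ ⊕ τ => c) = c • (fun _ : σ ⊕ τ => (1 : ℝ)) := by
      funext z; simp
    rw [h1, Matrix.mulVec_smul, NN_one, smul_comm]
  · rw [if_neg hv, hN v, hsum0 v hv]
    funext z; simp

end Pool.Agent.BrC
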