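import Pool.Agent.BrC.Ident

/-! BrC, module Brouwer: Brouwer's conjecture. -/

set_option autoImplicit false

namespace Pool.Agent.BrC

open Matrix

variable {V : Type*} [Fintype V] [DecidableEq V]

/-- Brouwer's conjecture for a symmetric 0/1 matrix with zero diagonal: `P = ∑_{v ∈ K} x v x vᵀ` for
the eigenvectors `x v` of the Laplacian. -/
theorem brouwer_matrix (A : Matrix V V ℝ) (hAs : A.IsSymm) (hA : ∀ i j, A i j = 0 ∨ A i j = 1)
    (hA0 : ∀ i, A i i = 0)
    (hL : (Matrix.diagonal (fun i => ∑ j, A i j) - A).IsHermitian) (K : Finset V) :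
    ∑ i ∈ K, hL.eigenvalues i ≤ (∑ i, ∑ j, A i j) / 2 + (K.card : ℝ) * (K.card + 1) / 2 := by
  have hs : ∀ i j, A i j = A j i := fun i j => by
    have := congrFun (congrFun hAs i) j
    simpa [Matrix.transpose_apply] using this.symm
  set x : V → V → ℝ := fun v => ⇑(hL.eigenvectorBasis v) with hx
  have horth : ∀ u v, ∑ z, x u z * x v z = if u = v then 1 else 0 := by
    intro u v
    have h := orthonormal_iff_ite.mp hL.eigenvectorBasis.orthonormal v u
    have h2 : inner ℝ (hL.eigenvectorBasis v) (hL.eigenvectorBasis u) = ∑ z, x u z * x v z := by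
      rw [EuclideanSpace.inner_eq_star_dotProduct]
      simp [dotProduct, hx]
    rw [← h2, h]
    by_cases huv : u = v
    · rw [if_pos huv, if_pos huv.symm]
    · rw [if_neg huv, if_neg (Ne.symm huv)]
  have heig : ∀ v, (Matrix.diagonal (fun i => ∑ j, A i j) - A) *ᵥ x v
      = hL.eigenvalues v • x v := fun v => hL.mulVec_eigenvectorBasis v
  -- the projection
  set P : Matrix V V ℝ := Matrix.of fun i j => ∑ v ∈ K, x v i * x v j with hP
  have hPij : ∀ i j, P i j = ∑ v ∈ K, x v i * x v j := fun i j => rfl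
  have hPs : P.IsSymm := by
    ext i j
    rw [Matrix.transpose_apply, hPij, hPij]
    exact Finset.sum_congr rfl fun v _ => mul_comm _ _
  have hPP : P * P = P := by
    ext i j
    rw [Matrix.mul_apply]
    have e1 : ∀ z, P i z * P z j = ∑ u ∈ K, ∑ v ∈ K, (x u i * x v j) * (x u z * x v z) := by
      intro z
      rw [hPij, hPij, Finset.sum_mul_sum]
      exact Finset.sum_congr rfl fun u _ => Finset.sum_congr rfl fun v _ => by ring
    rw [Finset.sum_congr rfl fun z _ => e1 z, Finset.sum_comm, hPij]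
    refine Finset.sum_congr rfl fun u hu => ?_
    rw [Finset.sum_comm]
    have e2 : ∀ v ∈ K, ∑ z, (x u i * x v j) * (x u z * x v z) =
        if u = v then x u i * x v j else 0 := by
      intro v _
      rw [← Finset.mul_sum, horth, mul_ite, mul_one, mul_zero]
    rw [Finset.sum_congr rfl e2, Finset.sum_ite_eq, if_pos hu]
  have hk : P.trace = (K.card : ℝ) := by
    rw [Matrix.trace]
    have e1 : ∀ i, P.diag i = ∑ v ∈ K, x v i * x v i := fun i => rfl
    rw [Finset.sum_congr rfl fun i _ => e1 i, Finset.sum_comm,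
      Finset.sum_congr rfl fun v _ => (horth v v).trans (if_pos rfl)]
    simp
  have key := main_ineq hPs hPP hk hA hs hA0
  -- the left side
  have hleft : ∑ i, ∑ j, A i j * (P i i + P j j - 2 * P i j) =
      2 * ∑ v ∈ K, hL.eigenvalues v := by
    have e1 : ∀ i j, A i j * (P i i + P j j - 2 * P i j) =
        ∑ v ∈ K, (A i j * (x v i * x v i) + A i j * (x v j * x v j)
          - 2 * (A i j * (x v i * x v j))) := by
      intro i j
      rw [hPij, hPij, hPij, Finset.sum_sub_distrib, Finset.sum_add_distrib, ← Finset.mul_sum,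
        ← Finset.mul_sum, ← Finset.mul_sum, ← Finset.mul_sum]
      ring
    rw [Finset.sum_congr rfl fun i _ => Finset.sum_congr rfl fun j _ => e1 i j]
    rw [Finset.sum_congr rfl fun i _ => Finset.sum_comm, Finset.sum_comm, Finset.mul_sum]
    refine Finset.sum_congr rfl fun v _ => ?_
    have e2 : ∑ i, x v i * ((Matrix.diagonal (fun i => ∑ j, A i j) - A) *ᵥ x v) i =
        hL.eigenvalues v := by
      rw [heig v]
      simp only [Pi.smul_apply, smul_eq_mul]
      have : ∀ i, x v i * (hL.eigenvalues v * x v i) = hL.eigenvalues v * (x v i * x v i) :=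
        fun i => by ring
      rw [Finset.sum_congr rfl fun i _ => this i, ← Finset.mul_sum, horth v v, if_pos rfl,
        mul_one]
    have e3 : ∑ i, x v i * ((Matrix.diagonal (fun i => ∑ j, A i j) - A) *ᵥ x v) i =
        ∑ i, ∑ j, (A i j * (x v i * x v i) - A i j * (x v i * x v j)) := by
      refine Finset.sum_congr rfl fun i _ => ?_
      rw [Matrix.sub_mulVec, Pi.sub_apply, Matrix.mulVec_diagonal, Matrix.mulVec, dotProduct,
        Finset.sum_sub_distrib, mul_sub, ← Finset.sum_mul, Finset.mul_sum]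
      congr 1
      · ring
      · exact Finset.sum_congr rfl fun j _ => by ring
    have e4 : ∑ i, ∑ j, A i j * (x v j * x v j) = ∑ i, ∑ j, A i j * (x v i * x v i) := by
      rw [Finset.sum_comm]
      exact Finset.sum_congr rfl fun i _ => Finset.sum_congr rfl fun j _ => by rw [hs]
    rw [← e2, e3]
    simp only [Finset.sum_sub_distrib, Finset.sum_add_distrib, ← Finset.mul_sum] at e4 ⊢
    linarith
  rw [hleft] at key
  linarith

/-- Brouwer's conjecture -/
theorem brouwer (G : SimpleGraph V) [DecidableRel G.Adj] (hL : (G.lapMatrix ℝ).IsHermitian)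
    (K : Finset V) :
    ∑ i ∈ K, hL.eigenvalues i ≤ (G.edgeFinset.card : ℝ) + (K.card : ℝ) * (K.card + 1) / 2 := by
  have hdeg : ∀ i, ∑ j, G.adjMatrix ℝ i j = (G.degree i : ℝ) := by
    intro i
    simp [SimpleGraph.adjMatrix_apply, SimpleGraph.degree, SimpleGraph.neighborFinset_eq_filter]
  have hLap : G.lapMatrix ℝ =
      Matrix.diagonal (fun i => ∑ j, G.adjMatrix ℝ i j) - G.adjMatrix ℝ := by
    rw [SimpleGraph.lapMatrix, SimpleGraph.degMatrix]
    congr 2
    funext i
    rw [hdeg i]
  have hsum : ∑ i, ∑ j, G.adjMatrix ℝ i j = 2 * (G.edgeFinset.card : ℝ) := by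
    rw [Finset.sum_congr rfl fun i _ => hdeg i]
    have := G.sum_degrees_eq_twice_card_edges
    exact_mod_cast this
  have main : ∀ (L : Matrix V V ℝ) (hL : L.IsHermitian),
      L = Matrix.diagonal (fun i => ∑ j, G.adjMatrix ℝ i j) - G.adjMatrix ℝ →
      ∑ i ∈ K, hL.eigenvalues i ≤
        (∑ i, ∑ j, G.adjMatrix ℝ i j) / 2 + (K.card : ℝ) * (K.card + 1) / 2 := by
    intro L hL h
    subst h
    refine brouwer_matrix _ (G.isSymm_adjMatrix) (fun i j => ?_) (fun i => ?_) hL K
    · rw [SimpleGraph.adjMatrix_apply]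
      by_cases h : G.Adj i j
      · right; rw [if_pos h]
      · left; rw [if_neg h]
    · rw [SimpleGraph.adjMatrix_apply, if_neg (G.irrefl)]
  have h := main _ hL hLap
  rw [hsum] at h
  linarith

end Pool.Agent.BrC
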