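import Pool.Agent.BrC.Defs

/-! BrC, module Nonvan: some determinant is not zero. -/

set_option autoImplicit false

namespace Pool.Agent.BrC

open Matrix

section

open Finset

variable {S T : Type*} [Fintype S] [DecidableEq S] [Fintype T]

/-- The matrix with columns `g i - g (φ i)`. -/
private def lc_F (x : S → S ⊕ T → ℝ) (φ : S → T) : Matrix S S ℝ :=
  fun a i => x a (Sum.inl i) - x a (Sum.inr (φ i))

private theorem lc_exists [Nonempty T] (x : S → S ⊕ T → ℝ) (hli : LinearIndependent ℝ x)
    (hsum : ∀ a, ∑ v, x a v = 0) : ∃ φ : S → T, (lc_F x φ).det ≠ 0 := by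
  classical
  by_contra hcon
  push Not at hcon
  -- the columns
  let col : (S → T) → S → (S → ℝ) := fun φ i a => lc_F x φ a i
  let P : Finset S → Prop := fun I => ∃ φ : S → T, LinearIndepOn ℝ (col φ) (I : Set S)
  have hP0 : P ∅ := by
    refine ⟨fun _ => Classical.arbitrary T, ?_⟩
    rw [coe_empty]
    exact linearIndepOn_empty ℝ _
  obtain ⟨I, hI, hmax⟩ : ∃ I, P I ∧ ∀ I', P I' → I'.card ≤ I.card := by
    obtain ⟨I, hI, h⟩ := exists_max_image (univ.filter P) Finset.card ⟨∅, by simp [hP0]⟩
    refine ⟨I, (mem_filter.mp hI).2, fun I' h' => h I' (by simp [h'])⟩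
  obtain ⟨φ, hφ⟩ := hI
  set U : Submodule ℝ (S → ℝ) := Submodule.span ℝ (col φ '' (I : Set S)) with hU
  have hIne : I ≠ univ := by
    intro h
    have h1 : LinearIndependent ℝ (col φ) := by
      rw [h, coe_univ] at hφ
      exact linearIndepOn_univ_iff.mp hφ
    have h2 : IsUnit (lc_F x φ) := by
      rw [← linearIndependent_cols_iff_isUnit]
      exact h1
    rw [isUnit_iff_isUnit_det] at h2
    exact h2.ne_zero (hcon φ)
  obtain ⟨i0, hi0⟩ : ∃ i, i ∉ I := by
    by_contra h
    push Not at h
    exact hIne (eq_univ_of_forall h)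
  have hout : ∀ i, i ∉ I → ∀ j, (fun a => x a (Sum.inl i) - x a (Sum.inr j)) ∈ U := by
    intro i hi j
    by_contra hnot
    have h1 : P (insert i I) := by
      refine ⟨Function.update φ i j, ?_⟩
      have h2 : ∀ i' ∈ (I : Set S), col (Function.update φ i j) i' = col φ i' := by
        intro i' hi'
        have : i' ≠ i := by
          rintro rfl
          exact hi hi'
        funext a
        simp [col, lc_F, this]
      rw [coe_insert, linearIndepOn_insert (by simpa using hi)]
      constructor
      · exact (linearIndepOn_congr fun i' hi' => (h2 i' hi').symm).mp hφ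
      · have h3 : col (Function.update φ i j) i =
            fun a => x a (Sum.inl i) - x a (Sum.inr j) := by
          funext a
          simp [col, lc_F]
        rw [h3, Set.image_congr h2]
        exact hnot
    have := hmax _ h1
    rw [card_insert_of_notMem hi] at this
    omega
  have hin : ∀ i ∈ I, (fun a => x a (Sum.inl i) - x a (Sum.inr (φ i))) ∈ U := by
    intro i hi
    exact Submodule.subset_span ⟨i, hi, rfl⟩
  let j0 : T := Classical.arbitrary T
  have hT : ∀ j, (fun a => x a (Sum.inr j) - x a (Sum.inr j0)) ∈ U := by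
    intro j
    have := U.sub_mem (hout i0 hi0 j0) (hout i0 hi0 j)
    convert this using 1
    funext a
    simp
  have hdiff : ∀ v, (fun a => x a v - x a (Sum.inr j0)) ∈ U := by
    rintro (i | j)
    · by_cases hi : i ∈ I
      · have := U.add_mem (hin i hi) (hT (φ i))
        convert this using 1
        funext a
        simp
      · exact hout i hi j0
    · exact hT j
  have hj0 : (fun a => x a (Sum.inr j0)) ∈ U := by
    have h1 : (fun a => ∑ v, (x a v - x a (Sum.inr j0))) ∈ U := by
      have := U.sum_mem (t := univ) (f := fun v => (fun a => x a v - x a (Sum.inr j0)))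
        fun v _ => hdiff v
      convert this using 1
      funext a
      simp
    have h2 : (fun a => ∑ v, (x a v - x a (Sum.inr j0))) =
        (-(Fintype.card (S ⊕ T) : ℝ)) • fun a => x a (Sum.inr j0) := by
      funext a
      rw [sum_sub_distrib, hsum, sum_const, card_univ]
      simp
      ring
    rw [h2] at h1
    have h3 : (-(Fintype.card (S ⊕ T) : ℝ)) ≠ 0 := by
      have : 0 < Fintype.card (S ⊕ T) := Fintype.card_pos_iff.mpr ⟨Sum.inr j0⟩
      simp only [ne_eq, neg_eq_zero, Nat.cast_eq_zero]
      omega
    exact (U.smul_mem_iff h3).mp h1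
  have hall : ∀ v, (fun a => x a v) ∈ U := by
    intro v
    have := U.add_mem (hdiff v) hj0
    convert this using 1
    funext a
    simp
  -- dimension count
  let X : Matrix S (S ⊕ T) ℝ := Matrix.of x
  have hr1 : X.rank = Fintype.card S := LinearIndependent.rank_matrix hli
  have hr2 : X.rank ≤ Module.finrank ℝ U := by
    rw [rank_eq_finrank_span_cols]
    apply Submodule.finrank_mono
    rw [Submodule.span_le]
    rintro _ ⟨v, rfl⟩
    exact hall v
  have hr3 : Module.finrank ℝ U ≤ I.card := by
    have : (col φ '' (I : Set S)) = ((I.image (col φ) : Finset (S → ℝ)) : Set (S → ℝ)) := by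
      rw [coe_image]
    rw [hU, this]
    exact (finrank_span_finset_le_card _).trans card_image_le
  have hr4 : I.card < Fintype.card S := by
    rw [← card_univ]
    exact card_lt_card (ssubset_univ_iff.mpr hIne)
  omega

end

variable {σ τ : Type*} [Fintype σ] [Fintype τ] [DecidableEq σ] [DecidableEq τ]

/-- Put `g v = fun a => x a v : σ → ℝ` (`v : σ ⊕ τ`). The `g v` span `σ → ℝ` (the matrix with rows
`x a` has rank `card σ`) and `∑ v, g v = 0`. Take a finset `I` of `σ` of maximal card such that for
some `φ : σ → τ` the family `i ↦ g (inl i) - g (inr (φ i))`, `i ∈ I`, is linearly independent; let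
`U` be its span. If some `i ∉ I`: by maximality `g (inl i) - g (inr j) ∈ U` for ALL `j : τ` (use
`Function.update φ i j`), so `g (inr j) - g (inr j') ∈ U` for all `j j'`, so all differences
`g v - g v'` are in `U`; `card • g v = ∑ v', (g v - g v') ∈ U`, so all `g v ∈ U`, so `U = ⊤` and
`I.card = finrank U = card σ`, a contradiction. So `I = univ` and the matrix is invertible
(`Matrix.linearIndependent_cols_iff_isUnit` or similar). -/
theorem nonvan [Nonempty τ] {x : σ → (σ ⊕ τ → ℝ)} (hx : LinearIndependent ℝ x)
    (h0 : ∀ a, ∑ v, x a v = 0) :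
    ∃ φ : σ → τ, (Matrix.of fun a i => x a (Sum.inl i) - x a (Sum.inr (φ i))).det ≠ 0 := by
  obtain ⟨φ, hφ⟩ := lc_exists x hx h0
  exact ⟨φ, hφ⟩

end Pool.Agent.BrC
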