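import Pool.Agent.BrC.DetSum
import Pool.Agent.BrC.Nonvan

/-! BrC, module Compound: the additive compound of the split Laplacian. -/

set_option autoImplicit false

namespace Pool.Agent.BrC

open Matrix

variable {σ τ : Type*} [Fintype σ] [Fintype τ] [DecidableEq σ] [DecidableEq τ]

/-- the difference of two rows -/
theorem NN_diff (w : σ → τ → ℝ) (x : σ ⊕ τ → ℝ) (i : σ) (j : τ) :
    (NN w *ᵥ x) (Sum.inl i) - (NN w *ᵥ x) (Sum.inr j) =
      ∑ i', (1 - w i' j) * (x (Sum.inl i') - x (Sum.inr j)) -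
        ∑ j', w i j' * (x (Sum.inl i) - x (Sum.inr j')) := by
  rw [NN_inl, NN_inr]
  simp only [mul_sub, sub_mul, one_mul, Finset.sum_sub_distrib, Finset.sum_mul]
  ring

/-- With `F φ = of fun a i => x a (inl i) - x a (inr (φ i))`, `f φ = det (F φ)`. By det_sum and the
eigenvalue equations `(∑ ν) f φ = ∑ i, det (F φ with column i replaced by NN_diff at j = φ i)`,
`= ∑ i, (∑ i', (1 - w i' (φ i)) * A i i' - ∑ j', w i j' * f (update φ i j'))`, where `A i i = f φ`
and `A i i' = f φ - f (update φ i (φ i'))` for `i' ≠ i` (`x(i') - x(φ i) = [x(i') - x(φ i')] +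
[x(i) - x(φ i)] - [x(i) - x(φ i')]`; the first is column `i'`, determinant zero). Take `φ` with
`|f φ|` maximal (`> 0` by nonvan), multiply by the sign of `f φ`. -/
theorem compound [Nonempty τ] {w : σ → τ → ℝ} (h0 : ∀ i j, 0 ≤ w i j) (h1 : ∀ i j, w i j ≤ 1)
    {x : σ → (σ ⊕ τ → ℝ)} (hx : LinearIndependent ℝ x) (hs : ∀ a, ∑ v, x a v = 0)
    {ν : σ → ℝ} (hN : ∀ a, NN w *ᵥ x a = ν a • x a) :
    -(∑ i, ∑ j, w i j) ≤ ∑ a, ν a := by
  set F : (σ → τ) → Matrix σ σ ℝ :=
    fun φ => Matrix.of fun a i => x a (Sum.inl i) - x a (Sum.inr (φ i)) with hF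
  set f : (σ → τ) → ℝ := fun φ => (F φ).det with hf
  obtain ⟨φ0, hφ0⟩ := nonvan hx hs
  obtain ⟨φ, hφ⟩ := Finite.exists_max (fun φ : σ → τ => |f φ|)
  have hpos : 0 < |f φ| := (abs_pos.2 hφ0).trans_le (hφ φ0)
  -- updating one column
  have hup : ∀ (i : σ) (j : τ), Matrix.cramer (F φ) (fun a => x a (Sum.inl i) - x a (Sum.inr j)) i
      = f (Function.update φ i j) := by
    intro i j
    rw [Matrix.cramer_apply, hf]
    congr 1
    ext a k
    by_cases hk : k = i
    · subst hk
      simp [hF]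
    · simp [hF, Matrix.updateCol_ne hk, Function.update_of_ne hk]
  have hcol : ∀ i i' : σ, Matrix.cramer (F φ)
      (fun a => x a (Sum.inl i') - x a (Sum.inr (φ i))) i =
      if i' = i then f φ else f φ - f (Function.update φ i (φ i')) := by
    intro i i'
    split_ifs with h
    · subst h
      rw [hup, Function.update_eq_self]
    · have h2 : (fun a => x a (Sum.inl i') - x a (Sum.inr (φ i))) =
          (fun a => F φ a i') + (fun a => x a (Sum.inl i) - x a (Sum.inr (φ i))) -
          (fun a => x a (Sum.inl i) - x a (Sum.inr (φ i'))) := by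
        funext a
        simp only [hF, Matrix.of_apply, Pi.add_apply, Pi.sub_apply]
        ring
      have h3 : Matrix.cramer (F φ) (fun a => F φ a i') i = 0 := by
        rw [Matrix.cramer_apply]
        refine Matrix.det_zero_of_column_eq h (fun a => ?_)
        rw [Matrix.updateCol_ne h, Matrix.updateCol_self]
      rw [h2, map_sub, map_add, Pi.sub_apply, Pi.add_apply, h3, hup, hup,
        Function.update_eq_self, zero_add]
  have key : (∑ a, ν a) * f φ = ∑ i, (∑ i', (1 - w i' (φ i)) *
      (if i' = i then f φ else f φ - f (Function.update φ i (φ i'))) -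
      ∑ j', w i j' * f (Function.update φ i j')) := by
    rw [hf, ← det_sum]
    refine Finset.sum_congr rfl fun i _ => ?_
    have h4 : (fun a => ν a * F φ a i) =
        ∑ i', (1 - w i' (φ i)) • (fun a => x a (Sum.inl i') - x a (Sum.inr (φ i))) -
        ∑ j', w i j' • (fun a => x a (Sum.inl i) - x a (Sum.inr j')) := by
      funext a
      have h5 := NN_diff w (x a) i (φ i)
      rw [hN a] at h5
      simp only [Pi.smul_apply, smul_eq_mul] at h5
      simp only [hF, Matrix.of_apply, Pi.sub_apply, Finset.sum_apply, Pi.smul_apply, smul_eq_mul]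
      rw [← h5]
      ring
    rw [h4, ← Matrix.cramer_apply, map_sub, map_sum, map_sum, Pi.sub_apply, Finset.sum_apply,
      Finset.sum_apply]
    simp only [map_smul, Pi.smul_apply, smul_eq_mul, hcol, hup]
    rfl
  -- signs
  obtain ⟨s, hs1, hs2⟩ : ∃ s : ℝ, |s| = 1 ∧ s * f φ = |f φ| := by
    rcases le_or_gt 0 (f φ) with h | h
    · exact ⟨1, by simp, by rw [one_mul, abs_of_nonneg h]⟩
    · exact ⟨-1, by simp, by rw [abs_of_neg h]; ring⟩
  have hg : ∀ ψ, s * f ψ ≤ |f φ| := by
    intro ψ
    calc s * f ψ ≤ |s * f ψ| := le_abs_self _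
      _ = |f ψ| := by rw [abs_mul, hs1, one_mul]
      _ ≤ |f φ| := hφ ψ
  have key2 : (∑ a, ν a) * |f φ| = ∑ i, (∑ i', (1 - w i' (φ i)) *
      (if i' = i then |f φ| else |f φ| - s * f (Function.update φ i (φ i'))) -
      ∑ j', w i j' * (s * f (Function.update φ i j'))) := by
    rw [← hs2, mul_left_comm, key, Finset.mul_sum]
    refine Finset.sum_congr rfl fun i _ => ?_
    rw [mul_sub, Finset.mul_sum, Finset.mul_sum]
    congr 1
    · refine Finset.sum_congr rfl fun i' _ => ?_
      split_ifs <;> ring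
    · refine Finset.sum_congr rfl fun j' _ => ?_
      ring
  have h6 : -(∑ i, ∑ j, w i j) * |f φ| ≤ (∑ a, ν a) * |f φ| := by
    rw [key2, neg_mul, Finset.sum_mul, ← Finset.sum_neg_distrib]
    refine Finset.sum_le_sum fun i _ => ?_
    have h7 : 0 ≤ ∑ i', (1 - w i' (φ i)) *
        (if i' = i then |f φ| else |f φ| - s * f (Function.update φ i (φ i'))) := by
      refine Finset.sum_nonneg fun i' _ => mul_nonneg (sub_nonneg.2 (h1 _ _)) ?_
      split_ifs
      · exact abs_nonneg _
      · exact sub_nonneg.2 (hg _)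
    have h8 : ∑ j', w i j' * (s * f (Function.update φ i j')) ≤ (∑ j', w i j') * |f φ| := by
      rw [Finset.sum_mul]
      exact Finset.sum_le_sum fun j' _ => mul_le_mul_of_nonneg_left (hg _) (h0 _ _)
    linarith
  exact le_of_mul_le_mul_right h6 hpos

end Pool.Agent.BrC
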