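import Pool.Agent.BrC.Defs

/-! BrC, module Count1: number of negative and of positive eigenvalues. -/

set_option autoImplicit false

namespace Pool.Agent.BrC

open Matrix

variable {σ τ : Type*} [Fintype σ] [Fintype τ] [DecidableEq σ] [DecidableEq τ]

private theorem quad_comb {w : σ → τ → ℝ} {x : σ ⊕ τ → σ ⊕ τ → ℝ}
    {ν : σ ⊕ τ → ℝ} (ho : ∀ u v, x u ⬝ᵥ x v = if u = v then 1 else 0)
    (he : ∀ v, NN w *ᵥ x v = ν v • x v) (K : Finset (σ ⊕ τ)) (c : K → ℝ) :
    (∑ v, c v • x v) ⬝ᵥ (NN w *ᵥ (∑ v, c v • x v)) = ∑ v : K, c v ^ 2 * ν v := by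
  have e1 : NN w *ᵥ (∑ v, c v • x v) = ∑ v, (c v * ν v) • x v := by
    rw [Matrix.mulVec_sum]
    refine Finset.sum_congr rfl fun v _ => ?_
    rw [Matrix.mulVec_smul, he, smul_smul]
  rw [e1, sum_dotProduct]
  refine Finset.sum_congr rfl fun v _ => ?_
  rw [dotProduct_sum, Finset.sum_eq_single v]
  · rw [smul_dotProduct, dotProduct_smul, ho, if_pos rfl]
    simp only [smul_eq_mul]; ring
  · intro u _ hu
    rw [smul_dotProduct, dotProduct_smul, ho, if_neg]
    · simp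
    · intro h; exact hu (Subtype.ext h.symm)
  · intro h; exact absurd (Finset.mem_univ v) h

/-- The `x v`, `v ∈ K`, restricted to `σ` are linearly independent: if `y = ∑_{v ∈ K} c v • x v`
vanishes on `σ`, then `yᵀ N y = ∑ j, (∑ i, (1 - w i j)) y_j² ≥ 0` and `= ∑_{v ∈ K} c v² ν v`, which
is negative unless `c = 0`. So `K.card ≤ finrank (σ → ℝ) = card σ`. -/
theorem card_neg {w : σ → τ → ℝ} (h1 : ∀ i j, w i j ≤ 1) {x : σ ⊕ τ → σ ⊕ τ → ℝ}
    {ν : σ ⊕ τ → ℝ} (ho : ∀ u v, x u ⬝ᵥ x v = if u = v then 1 else 0)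
    (he : ∀ v, NN w *ᵥ x v = ν v • x v) (K : Finset (σ ⊕ τ)) (hK : ∀ v ∈ K, ν v < 0) :
    K.card ≤ Fintype.card σ := by
  by_contra hlt
  push Not at hlt
  let φ : (K → ℝ) →ₗ[ℝ] (σ → ℝ) :=
    { toFun := fun c i => ∑ v, c v * x v (Sum.inl i)
      map_add' := fun a b => by
        funext i; simp only [Pi.add_apply, add_mul, Finset.sum_add_distrib]
      map_smul' := fun r a => by
        funext i
        simp only [Pi.smul_apply, smul_eq_mul, RingHom.id_apply, Finset.mul_sum, mul_assoc] }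
  have hker : LinearMap.ker φ ≠ ⊥ := by
    apply LinearMap.ker_ne_bot_of_finrank_lt
    rw [Module.finrank_fintype_fun_eq_card, Module.finrank_fintype_fun_eq_card,
      Fintype.card_coe]
    exact hlt
  obtain ⟨c, hc, hc0⟩ := (Submodule.ne_bot_iff _).1 hker
  rw [LinearMap.mem_ker] at hc
  have hz : ∀ i, (∑ v, c v • x v) (Sum.inl i) = 0 := by
    intro i
    have := congrFun hc i
    simp only [φ, LinearMap.coe_mk, AddHom.coe_mk, Pi.zero_apply] at this
    rw [Finset.sum_apply]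
    simpa only [Pi.smul_apply, smul_eq_mul] using this
  have hq := quad_comb ho he K c
  set y : σ ⊕ τ → ℝ := ∑ v, c v • x v with hy
  have hnn : 0 ≤ y ⬝ᵥ (NN w *ᵥ y) := by
    rw [dotProduct, Fintype.sum_sum_type]
    have a1 : ∑ i, y (Sum.inl i) * (NN w *ᵥ y) (Sum.inl i) = 0 :=
      Finset.sum_eq_zero fun i _ => by rw [hz i, zero_mul]
    rw [a1, zero_add]
    refine Finset.sum_nonneg fun j _ => ?_
    rw [NN_inr]
    have a2 : ∑ i, w i j * y (Sum.inl i) = 0 :=
      Finset.sum_eq_zero fun i _ => by rw [hz i, mul_zero]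
    rw [a2, zero_add]
    have a3 : 0 ≤ ∑ i, (1 - w i j) := Finset.sum_nonneg fun i _ => by linarith [h1 i j]
    have a4 := mul_nonneg a3 (mul_self_nonneg (y (Sum.inr j)))
    calc (0 : ℝ) ≤ (∑ i, (1 - w i j)) * (y (Sum.inr j) * y (Sum.inr j)) := a4
      _ = _ := by ring
  have hneg : ∑ v : K, c v ^ 2 * ν v < 0 := by
    obtain ⟨v, hv⟩ : ∃ v, c v ≠ 0 := by
      by_contra hcon
      push Not at hcon
      exact hc0 (funext hcon)
    apply Finset.sum_neg' (s := Finset.univ)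
    · intro u _
      exact mul_nonpos_of_nonneg_of_nonpos (sq_nonneg _) (hK u u.2).le
    · exact ⟨v, Finset.mem_univ v, mul_neg_of_pos_of_neg (by positivity) (hK v v.2)⟩
  linarith

/-- the number of positive eigenvalues on the orthogonal complement of `1`: for `y = ∑_{v ∈ K} c v • x v`
vanishing on `τ` (so `∑ y = 0`) `yᵀ N y = -∑ i, (∑ j, w i j) y_i² + (∑ y)² ≤ 0`. -/
theorem card_pos {w : σ → τ → ℝ} (h0 : ∀ i j, 0 ≤ w i j) {x : σ ⊕ τ → σ ⊕ τ → ℝ}
    {ν : σ ⊕ τ → ℝ} (ho : ∀ u v, x u ⬝ᵥ x v = if u = v then 1 else 0)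
    (he : ∀ v, NN w *ᵥ x v = ν v • x v) (K : Finset (σ ⊕ τ)) (hK : ∀ v ∈ K, 0 < ν v)
    (hs : ∀ v ∈ K, ∑ z, x v z = 0) : K.card ≤ Fintype.card τ := by
  by_contra hlt
  push Not at hlt
  let φ : (K → ℝ) →ₗ[ℝ] (τ → ℝ) :=
    { toFun := fun c i => ∑ v, c v * x v (Sum.inr i)
      map_add' := fun a b => by
        funext i; simp only [Pi.add_apply, add_mul, Finset.sum_add_distrib]
      map_smul' := fun r a => by
        funext i
        simp only [Pi.smul_apply, smul_eq_mul, RingHom.id_apply, Finset.mul_sum, mul_assoc] }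
  have hker : LinearMap.ker φ ≠ ⊥ := by
    apply LinearMap.ker_ne_bot_of_finrank_lt
    rw [Module.finrank_fintype_fun_eq_card, Module.finrank_fintype_fun_eq_card,
      Fintype.card_coe]
    exact hlt
  obtain ⟨c, hc, hc0⟩ := (Submodule.ne_bot_iff _).1 hker
  rw [LinearMap.mem_ker] at hc
  have hz : ∀ i, (∑ v, c v • x v) (Sum.inr i) = 0 := by
    intro i
    have := congrFun hc i
    simp only [φ, LinearMap.coe_mk, AddHom.coe_mk, Pi.zero_apply] at this
    rw [Finset.sum_apply]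
    simpa only [Pi.smul_apply, smul_eq_mul] using this
  have hq := quad_comb ho he K c
  have hsum : ∑ z, (∑ v, c v • x v) z = 0 := by
    simp only [Finset.sum_apply, Pi.smul_apply, smul_eq_mul]
    rw [Finset.sum_comm]
    refine Finset.sum_eq_zero fun v _ => ?_
    rw [← Finset.mul_sum, hs v v.2, mul_zero]
  set y : σ ⊕ τ → ℝ := ∑ v, c v • x v with hy
  have hsl : ∑ i, y (Sum.inl i) = 0 := by
    rw [Fintype.sum_sum_type] at hsum
    have : ∑ j, y (Sum.inr j) = 0 := Finset.sum_eq_zero fun j _ => hz j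
    linarith
  have hnp : y ⬝ᵥ (NN w *ᵥ y) ≤ 0 := by
    rw [dotProduct, Fintype.sum_sum_type]
    have a1 : ∑ j, y (Sum.inr j) * (NN w *ᵥ y) (Sum.inr j) = 0 :=
      Finset.sum_eq_zero fun i _ => by rw [hz i, zero_mul]
    rw [a1, add_zero]
    refine Finset.sum_nonpos fun i _ => ?_
    rw [NN_inl, hsl]
    have a2 : ∑ j, w i j * y (Sum.inr j) = 0 :=
      Finset.sum_eq_zero fun j _ => by rw [hz j, mul_zero]
    rw [a2]
    have a3 : 0 ≤ ∑ j, w i j := Finset.sum_nonneg fun j _ => h0 i j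
    have a4 := mul_nonneg a3 (mul_self_nonneg (y (Sum.inl i)))
    have a5 : y (Sum.inl i) * (0 - (∑ j, w i j) * y (Sum.inl i) + 0)
        = -((∑ j, w i j) * (y (Sum.inl i) * y (Sum.inl i))) := by ring
    rw [a5]
    linarith
  have hpos : 0 < ∑ v : K, c v ^ 2 * ν v := by
    obtain ⟨v, hv⟩ : ∃ v, c v ≠ 0 := by
      by_contra hcon
      push Not at hcon
      exact hc0 (funext hcon)
    apply Finset.sum_pos' (s := Finset.univ)
    · intro u _
      exact mul_nonneg (sq_nonneg _) (hK u u.2).le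
    · exact ⟨v, Finset.mem_univ v, mul_pos (by positivity) (hK v v.2)⟩
  linarith

end Pool.Agent.BrC
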