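import Pool.Agent.BrC.Defs

/-! BrC, module Count2: the complement and the traces. -/

set_option autoImplicit false

namespace Pool.Agent.BrC

open Matrix

variable {σ τ : Type*} [Fintype σ] [Fintype τ] [DecidableEq σ] [DecidableEq τ]

/-- the complement: clique `τ`, independent set `σ`, weights `1 - w`; `N(Hᶜ) = J - N(H)` -/
theorem NN_compl (w : σ → τ → ℝ) (x : σ ⊕ τ → ℝ) (hx : ∑ z, x z = 0) :
    NN (fun (j : τ) (i : σ) => 1 - w i j) *ᵥ (fun z => x z.swap) =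
      fun z => -(NN w *ᵥ x) z.swap := by
  have h0 : ∑ i, x (Sum.inl i) + ∑ j, x (Sum.inr j) = 0 := by
    rw [← Fintype.sum_sum_type]
    exact hx
  funext z
  rcases z with j | i
  · rw [NN_inl, Sum.swap_inl, NN_inr]
    simp only [Sum.swap_inl, Sum.swap_inr, sub_mul, one_mul, Finset.sum_sub_distrib]
    linarith
  · rw [NN_inr, Sum.swap_inr, NN_inl]
    simp only [Sum.swap_inl, sub_mul, one_mul, Finset.sum_sub_distrib,
      sub_sub_cancel]
    linarith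

private theorem c2_mul {x : σ ⊕ τ → σ ⊕ τ → ℝ}
    (ho : ∀ u v, x u ⬝ᵥ x v = if u = v then 1 else 0) :
    (Matrix.of x) * (Matrix.of x)ᵀ = 1 := by
  ext u v
  rw [mul_apply]
  simp only [transpose_apply, of_apply]
  rw [one_apply]
  exact ho u v

private theorem c2_mul' {x : σ ⊕ τ → σ ⊕ τ → ℝ}
    (ho : ∀ u v, x u ⬝ᵥ x v = if u = v then 1 else 0) :
    (Matrix.of x)ᵀ * (Matrix.of x) = 1 :=
  mul_eq_one_comm.mp (c2_mul ho)

/-- `trace (P N) = ∑ ν v * (x vᵀ P x v)` -/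
private theorem c2_trace {w : σ → τ → ℝ} {x : σ ⊕ τ → σ ⊕ τ → ℝ}
    {ν : σ ⊕ τ → ℝ} (ho : ∀ u v, x u ⬝ᵥ x v = if u = v then 1 else 0)
    (he : ∀ v, NN w *ᵥ x v = ν v • x v) (P : Matrix (σ ⊕ τ) (σ ⊕ τ) ℝ) :
    (P * NN w).trace = ∑ v, ν v * (x v ⬝ᵥ (P *ᵥ x v)) := by
  have h1 : (P * NN w).trace = ((Matrix.of x) * (P * NN w) * (Matrix.of x)ᵀ).trace := by
    rw [Matrix.mul_assoc, trace_mul_comm (Matrix.of x), Matrix.mul_assoc (P * NN w),
      c2_mul' ho, Matrix.mul_one]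
  rw [h1, trace]
  refine Finset.sum_congr rfl fun v _ => ?_
  have h2 : (Matrix.of x * (P * NN w) * (Matrix.of x)ᵀ) v v =
      x v ⬝ᵥ ((P * NN w) *ᵥ x v) := by
    rw [Matrix.mul_assoc, mul_apply, dotProduct]
    refine Finset.sum_congr rfl fun u _ => ?_
    rw [of_apply, mulVec, dotProduct, mul_apply]
    rfl
  rw [diag_apply, h2, ← mulVec_mulVec, he v, mulVec_smul, dotProduct_smul, smul_eq_mul]

/-- the sum of all eigenvalues is the trace -/
theorem sum_nu {w : σ → τ → ℝ} {x : σ ⊕ τ → σ ⊕ τ → ℝ}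
    {ν : σ ⊕ τ → ℝ} (ho : ∀ u v, x u ⬝ᵥ x v = if u = v then 1 else 0)
    (he : ∀ v, NN w *ᵥ x v = ν v • x v) :
    ∑ v, ν v = Fintype.card σ + (Fintype.card σ : ℝ) * Fintype.card τ
      - 2 * ∑ i, ∑ j, w i j := by
  have h1 := c2_trace ho he 1
  rw [Matrix.one_mul] at h1
  have h2 : ∑ v, ν v * (x v ⬝ᵥ ((1 : Matrix (σ ⊕ τ) (σ ⊕ τ) ℝ) *ᵥ x v)) = ∑ v, ν v := by
    refine Finset.sum_congr rfl fun v _ => ?_
    rw [one_mulVec, ho v v, if_pos rfl, mul_one]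
  rw [h2] at h1
  rw [← h1]
  have h5 : (NN w).trace = (Matrix.of fun (i i' : σ) => 1 - if i = i' then ∑ j, w i j else 0).trace
      + (Matrix.diagonal fun j => ∑ i, (1 - w i j)).trace := by
    unfold NN
    rw [trace, Fintype.sum_sum_type]
    rfl
  rw [h5, trace_diagonal]
  have h3 : (Matrix.of fun (i i' : σ) => 1 - if i = i' then ∑ j, w i j else 0).trace =
      Fintype.card σ - ∑ i, ∑ j, w i j := by
    rw [trace]
    simp only [diag_apply, of_apply, if_true, Finset.sum_sub_distrib, Finset.sum_const,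
      Finset.card_univ, nsmul_eq_mul, mul_one]
  rw [h3]
  have h4 : ∑ j, ∑ i, (1 - w i j) = (Fintype.card σ : ℝ) * Fintype.card τ -
      ∑ i, ∑ j, w i j := by
    simp only [Finset.sum_sub_distrib, Finset.sum_const, Finset.card_univ, nsmul_eq_mul, mul_one]
    rw [Finset.sum_comm]
    ring
  rw [h4]
  ring

/-- `trace (P N) = ∑ ν v * (x vᵀ P x v)` -/
theorem trace_eig {w : σ → τ → ℝ} {x : σ ⊕ τ → σ ⊕ τ → ℝ}
    {ν : σ ⊕ τ → ℝ} (ho : ∀ u v, x u ⬝ᵥ x v = if u = v then 1 else 0)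
    (he : ∀ v, NN w *ᵥ x v = ν v • x v) (P : Matrix (σ ⊕ τ) (σ ⊕ τ) ℝ) :
    (P * NN w).trace = ∑ v, ν v * (x v ⬝ᵥ (P *ᵥ x v)) :=
  c2_trace ho he P

end Pool.Agent.BrC
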