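import Mathlib

/-!
# Brouwer's conjecture on Laplacian eigenvalue sums: common definitions (library BrC)
-/

set_option autoImplicit false

namespace Pool.Agent.BrC

open Matrix

/-- `N = s I - L(H)`, where `H` is the weighted split graph with clique `σ` (`s` vertices, weights 1),
independent set `τ` and weights `w i j` between them. -/
noncomputable def NN {σ τ : Type*} [Fintype σ] [Fintype τ] [DecidableEq σ] [DecidableEq τ]
    (w : σ → τ → ℝ) : Matrix (σ ⊕ τ) (σ ⊕ τ) ℝ :=
  Matrix.fromBlocks (Matrix.of fun i i' => 1 - if i = i' then ∑ j, w i j else 0) (Matrix.of w)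
    (Matrix.of fun j i => w i j) (Matrix.diagonal fun j => ∑ i, (1 - w i j))

section
variable {σ τ : Type*} [Fintype σ] [Fintype τ] [DecidableEq σ] [DecidableEq τ]

theorem NN_inl (w : σ → τ → ℝ) (x : σ ⊕ τ → ℝ) (i : σ) :
    (NN w *ᵥ x) (Sum.inl i) = ∑ i', x (Sum.inl i') - (∑ j, w i j) * x (Sum.inl i)
      + ∑ j, w i j * x (Sum.inr j) := by
  unfold NN
  rw [Matrix.mulVec, dotProduct, Fintype.sum_sum_type]
  simp only [Matrix.fromBlocks_apply₁₁, Matrix.fromBlocks_apply₁₂, Matrix.of_apply, sub_mul,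
    one_mul, ite_mul, zero_mul, Finset.sum_sub_distrib, Finset.sum_ite_eq, Finset.mem_univ,
    if_true]

theorem NN_inr (w : σ → τ → ℝ) (x : σ ⊕ τ → ℝ) (j : τ) :
    (NN w *ᵥ x) (Sum.inr j) = ∑ i, w i j * x (Sum.inl i)
      + (∑ i, (1 - w i j)) * x (Sum.inr j) := by
  unfold NN
  rw [Matrix.mulVec, dotProduct, Fintype.sum_sum_type]
  simp only [Matrix.fromBlocks_apply₂₁, Matrix.fromBlocks_apply₂₂, Matrix.of_apply,
    Matrix.diagonal_apply, ite_mul, zero_mul, Finset.sum_ite_eq, Finset.mem_univ, if_true]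

theorem NN_isSymm (w : σ → τ → ℝ) : (NN w).IsSymm := by
  unfold NN Matrix.IsSymm
  rw [Matrix.fromBlocks_transpose]
  congr 1
  · ext i i'
    simp only [Matrix.transpose_apply, Matrix.of_apply]
    by_cases h : i = i'
    · subst h; rfl
    · rw [if_neg h, if_neg (Ne.symm h)]
  · rw [Matrix.diagonal_transpose]

/-- an orthonormal eigensystem of `NN w`; the vector with index `v0` is a multiple of the all ones
vector, all others are orthogonal to it -/
structure ESys (w : σ → τ → ℝ) (v0 : σ ⊕ τ) (x : σ ⊕ τ → σ ⊕ τ → ℝ) (ν : σ ⊕ τ → ℝ) : Prop where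
  orth : ∀ u v, x u ⬝ᵥ x v = if u = v then 1 else 0
  sum0 : ∀ v, v ≠ v0 → ∑ z, x v z = 0
  eig : ∀ v, NN w *ᵥ x v = ν v • x v
  top : ν v0 = Fintype.card σ

end

end Pool.Agent.BrC
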