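import Pool.Agent.BrC.Defs

/-! BrC, module DetSum: derivative of the determinant in the columns. -/

set_option autoImplicit false

namespace Pool.Agent.BrC

open Matrix

variable {σ : Type*} [Fintype σ] [DecidableEq σ]

/-- `det (updateCol F i b) = (adjugate F *ᵥ b) i` (Matrix.cramer), so the sum is
`trace (adjugate F * diagonal D * F) = trace (diagonal D * F * adjugate F) = det F * ∑ D`. -/
theorem det_sum (D : σ → ℝ) (F : Matrix σ σ ℝ) :
    ∑ i, (F.updateCol i (fun a => D a * F a i)).det = (∑ a, D a) * F.det := by
  have h1 : ∀ i, (F.updateCol i (fun a => D a * F a i)).det =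
      (F.adjugate * (diagonal D * F)) i i := by
    intro i
    rw [← cramer_apply, cramer_eq_adjugate_mulVec, mulVec, mul_apply]
    refine Finset.sum_congr rfl fun a _ => ?_
    rw [diagonal_mul]
  simp_rw [h1]
  change trace (F.adjugate * (diagonal D * F)) = _
  rw [← Matrix.mul_assoc, trace_mul_comm, ← Matrix.mul_assoc, mul_adjugate,
    smul_mul, Matrix.one_mul, trace_smul, trace_diagonal, smul_eq_mul, mul_comm]

end Pool.Agent.BrC
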