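import Pool.Agent.BrC.Brouwer
import Pool.Agent.MP_8604ae_co.Defs

/-! BrC, module Facet: Brouwer's conjecture for sorted spectra given by the characteristic
polynomial, and for the points of the polytope `P n`. -/

set_option autoImplicit false

namespace Pool.Agent.BrC

open Matrix Pool.Agent.MP_8604ae_co

/-- two families with the same multiset of values differ by a permutation -/
theorem exists_perm {α β : Type*} [Fintype α] [DecidableEq β] {f g : α → β}
    (h : (Finset.univ : Finset α).val.map f = (Finset.univ : Finset α).val.map g) :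
    ∃ e : α ≃ α, ∀ a, g (e a) = f a := by
  have hc : ∀ c, Nonempty ({a // f a = c} ≃ {a // g a = c}) := by
    intro c
    have h1 := congrArg (Multiset.count c) h
    rw [Multiset.count_map, Multiset.count_map] at h1
    refine ⟨Fintype.equivOfCardEq ?_⟩
    rw [Fintype.card_subtype, Fintype.card_subtype]
    have h2 : ∀ u : α → β, (Finset.univ.filter (fun a => u a = c)).card =
        Multiset.card ((Finset.univ : Finset α).val.filter (fun a => c = u a)) := by
      intro u
      rw [Finset.card_def, Finset.filter_val]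
      congr 1
      refine Multiset.filter_congr fun a _ => ?_
      exact eq_comm
    rw [h2, h2, h1]
  refine ⟨Equiv.ofFiberEquiv fun c => (hc c).some, fun a => ?_⟩
  exact Equiv.ofFiberEquiv_map _ a

theorem lap_hermitian {V : Type*} [Fintype V] [DecidableEq V] (G : SimpleGraph V)
    [DecidableRel G.Adj] : (G.lapMatrix ℝ).IsHermitian := by
  rw [Matrix.IsHermitian, Matrix.conjTranspose_eq_transpose_of_trivial]
  exact G.isSymm_lapMatrix (R := ℝ)

open scoped Classical in
/-- a spectrum in the sense of `IsSpectrum` is a permutation of the eigenvalues -/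
theorem spectrum_perm {n : ℕ} (G : SimpleGraph (Fin n)) (x : Fin n → ℝ)
    (hx : IsSpectrum G x) :
    ∃ e : Fin n ≃ Fin n, ∀ i, (lap_hermitian G).eigenvalues (e i) = x i := by
  have h3 : (G.lapMatrix ℝ).charpoly = ∏ i, (Polynomial.X - Polynomial.C (x i)) := hx.2
  have h1 : (G.lapMatrix ℝ).charpoly.roots = (Finset.univ : Finset (Fin n)).val.map x := by
    have h4 : Multiset.map (fun i => Polynomial.X - Polynomial.C (x i)) Finset.univ.val =
        ((Finset.univ : Finset (Fin n)).val.map x).map
          (fun a : ℝ => Polynomial.X - Polynomial.C a) := by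
      rw [Multiset.map_map]
      rfl
    rw [h3, Finset.prod_eq_multiset_prod, h4, Polynomial.roots_multiset_prod_X_sub_C]
  have h2 := (lap_hermitian G).roots_charpoly_eq_eigenvalues
  rw [h1] at h2
  exact exists_perm h2

open scoped Classical in
/-- Brouwer's conjecture for sorted spectra -/
theorem brouwer_spectrum (n : ℕ) (G : SimpleGraph (Fin n)) (x : Fin n → ℝ)
    (hx : IsSpectrum G x) (k : ℕ) (hk : k ≤ n) :
    topSum x k ≤ (G.edgeSet.ncard : ℝ) + k * (k + 1) / 2 := by
  obtain ⟨e, he⟩ := spectrum_perm G x hx
  set K : Finset (Fin n) := (Finset.univ.filter (fun i : Fin n => (i : ℕ) < k)).map e.toEmbedding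
    with hK
  have hcard : K.card = k := by
    rw [hK, Finset.card_map]
    have h := Fin.card_filter_val_lt (n := n) (m := k)
    rw [h, Nat.min_eq_right hk]
  have h1 := brouwer G (lap_hermitian G) K
  rw [hcard, hK, Finset.sum_map] at h1
  have h2 : (G.edgeSet.ncard : ℝ) = (G.edgeFinset.card : ℝ) := by
    rw [Set.ncard_eq_toFinset_card', SimpleGraph.edgeFinset]
  rw [h2]
  refine le_trans (le_of_eq ?_) h1
  unfold topSum
  exact Finset.sum_congr rfl fun i _ => (he i).symm

open scoped Classical in
/-- the sum of all eigenvalues is twice the number of edges -/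
theorem topSum_all {n : ℕ} (G : SimpleGraph (Fin n)) (x : Fin n → ℝ) (hx : IsSpectrum G x) :
    topSum x n = 2 * (G.edgeSet.ncard : ℝ) := by
  obtain ⟨e, he⟩ := spectrum_perm G x hx
  have h1 : topSum x n = ∑ i, (lap_hermitian G).eigenvalues i := by
    unfold topSum
    rw [Finset.filter_true_of_mem (fun i _ => i.2),
      ← e.sum_comp (fun i => (lap_hermitian G).eigenvalues i)]
    exact Finset.sum_congr rfl fun i _ => (he i).symm
  have h2 := (lap_hermitian G).trace_eq_sum_eigenvalues
  have h3 : (G.lapMatrix ℝ).trace = ∑ i, (G.degree i : ℝ) := by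
    rw [Matrix.trace]
    refine Finset.sum_congr rfl fun i _ => ?_
    simp [SimpleGraph.lapMatrix, SimpleGraph.degMatrix]
  have h4 : (∑ i, (G.degree i : ℝ)) = 2 * (G.edgeFinset.card : ℝ) := by
    exact_mod_cast G.sum_degrees_eq_twice_card_edges
  have h5 : (G.edgeSet.ncard : ℝ) = (G.edgeFinset.card : ℝ) := by
    rw [Set.ncard_eq_toFinset_card', SimpleGraph.edgeFinset]
  rw [h1, h5, ← h4, ← h3, h2]
  simp

theorem topSum_add {n : ℕ} (x y : Fin n → ℝ) (k : ℕ) :
    topSum (x + y) k = topSum x k + topSum y k := Finset.sum_add_distrib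

theorem topSum_smul {n : ℕ} (c : ℝ) (x : Fin n → ℝ) (k : ℕ) :
    topSum (c • x) k = c * topSum x k := by
  unfold topSum
  rw [Finset.mul_sum]
  rfl

/-- the facet inequalities `p = q` hold on the whole polytope -/
theorem brouwer_hull {n : ℕ} {x : Fin n → ℝ} (hx : x ∈ P n) (k : ℕ) (hk : k ≤ n) :
    topSum x k + topSum x k ≤ topSum x n + k * (k + 1) := by
  have hconv : Convex ℝ {x : Fin n → ℝ | topSum x k + topSum x k ≤ topSum x n + k * (k + 1)} := by
    intro y hy z hz a b ha hb hab
    simp only [Set.mem_ofPred_eq] at hy hz ⊢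
    rw [topSum_add, topSum_smul, topSum_smul, topSum_add, topSum_smul, topSum_smul]
    have h1 := mul_le_mul_of_nonneg_left hy ha
    have h2 := mul_le_mul_of_nonneg_left hz hb
    have h3 : (k * (k + 1) : ℝ) = a * (k * (k + 1)) + b * (k * (k + 1)) := by
      rw [← add_mul, hab, one_mul]
    linarith
  refine convexHull_min ?_ hconv hx
  rintro y ⟨G, hG⟩
  show topSum y k + topSum y k ≤ topSum y n + k * (k + 1)
  have h1 := brouwer_spectrum n G y hG k hk
  rw [topSum_all G y hG]
  linarith

end Pool.Agent.BrC
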