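import Pool.Agent.BrC.Compound
import Pool.Agent.BrC.Basis
import Pool.Agent.BrC.Count1
import Pool.Agent.BrC.Count2

/-! BrC, module Fin2: the compound lemma for finsets of eigenvectors. -/

set_option autoImplicit false

namespace Pool.Agent.BrC

open Matrix

variable {σ τ : Type*} [Fintype σ] [Fintype τ] [DecidableEq σ] [DecidableEq τ]

private theorem f2_li {x : σ ⊕ τ → σ ⊕ τ → ℝ}
    (ho : ∀ u v, x u ⬝ᵥ x v = if u = v then 1 else 0) : LinearIndependent ℝ x := by
  rw [Fintype.linearIndependent_iff]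
  intro c hc v
  have h1 : (∑ u, c u • x u) ⬝ᵥ x v = 0 := by rw [hc, zero_dotProduct]
  rw [sum_dotProduct] at h1
  simp only [smul_dotProduct, ho, smul_eq_mul, mul_ite, mul_one, mul_zero,
    Finset.sum_ite_eq', Finset.mem_univ, if_true] at h1
  exact h1

/-- transport of `compound` to a finset of indices (choose an equivalence `σ ≃ K`) -/
theorem compound_fin [Nonempty τ] {w : σ → τ → ℝ} (h0 : ∀ i j, 0 ≤ w i j)
    (h1 : ∀ i j, w i j ≤ 1) {v0 : σ ⊕ τ} {x : σ ⊕ τ → σ ⊕ τ → ℝ} {ν : σ ⊕ τ → ℝ}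
    (hE : ESys w v0 x ν) {K : Finset (σ ⊕ τ)} (hK : K.card = Fintype.card σ) (hv : v0 ∉ K) :
    -(∑ i, ∑ j, w i j) ≤ ∑ v ∈ K, ν v := by
  have e : σ ≃ K := Fintype.equivOfCardEq (by rw [Fintype.card_coe, hK])
  have h2 : ∑ v ∈ K, ν v = ∑ a : σ, ν (e a).val := by
    rw [← Finset.sum_coe_sort K]
    exact (Equiv.sum_comp e (fun v : K => ν v.val)).symm
  rw [h2]
  refine compound h0 h1 (x := fun a => x (e a).val) ?_ ?_ ?_
  · exact (f2_li hE.orth).comp (fun a : σ => (e a).val)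
      (Subtype.val_injective.comp e.injective)
  · intro a
    refine hE.sum0 _ fun h => hv ?_
    rw [← h]
    exact (e a).prop
  · intro a
    exact hE.eig _

/-- the same for the complement (NN_compl, `compound` with the roles of `σ` and `τ` exchanged) -/
theorem compound_fin' [Nonempty σ] {w : σ → τ → ℝ} (h0 : ∀ i j, 0 ≤ w i j)
    (h1 : ∀ i j, w i j ≤ 1) {v0 : σ ⊕ τ} {x : σ ⊕ τ → σ ⊕ τ → ℝ} {ν : σ ⊕ τ → ℝ}
    (hE : ESys w v0 x ν) {K : Finset (σ ⊕ τ)} (hK : K.card = Fintype.card τ) (hv : v0 ∉ K) :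
    ∑ v ∈ K, ν v ≤ (Fintype.card σ : ℝ) * Fintype.card τ - ∑ i, ∑ j, w i j := by
  have e : τ ≃ K := Fintype.equivOfCardEq (by rw [Fintype.card_coe, hK])
  have h2 : ∑ v ∈ K, ν v = ∑ a : τ, ν (e a).val := by
    rw [← Finset.sum_coe_sort K]
    exact (Equiv.sum_comp e (fun v : K => ν v.val)).symm
  have hne : ∀ a : τ, (e a).val ≠ v0 := by
    intro a h
    apply hv
    rw [← h]
    exact (e a).prop
  have h3 := compound (σ := τ) (τ := σ) (w := fun j i => 1 - w i j)
    (x := fun a z => x (e a).val z.swap) (ν := fun a => -ν (e a).val)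
    (fun j i => sub_nonneg.mpr (h1 i j))
    (fun j i => sub_le_self _ (h0 i j)) ?_ ?_ ?_
  · have h4 : ∑ j : τ, ∑ i : σ, (1 - w i j) = (Fintype.card σ : ℝ) * Fintype.card τ -
        ∑ i, ∑ j, w i j := by
      simp only [Finset.sum_sub_distrib, Finset.sum_const, Finset.card_univ, nsmul_eq_mul,
        mul_one]
      rw [Finset.sum_comm]
      ring
    rw [h4, Finset.sum_neg_distrib] at h3
    rw [h2]
    linarith
  · have h5 : LinearIndependent ℝ (fun a : τ => x (e a).val) :=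
      (f2_li hE.orth).comp (fun a : τ => (e a).val) (Subtype.val_injective.comp e.injective)
    have h6 := h5.map' (LinearEquiv.funCongrLeft ℝ ℝ (Equiv.sumComm τ σ)).toLinearMap
      (LinearEquiv.ker _)
    exact h6
  · intro a
    have h7 := hE.sum0 _ (hne a)
    rw [← h7]
    exact Equiv.sum_comp (Equiv.sumComm τ σ) (fun z => x (e a).val z)
  · intro a
    rw [NN_compl w _ (hE.sum0 _ (hne a)), hE.eig]
    funext z
    simp

end Pool.Agent.BrC
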