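import Pool.Agent.BrC.LevelInt

/-! BrC, module Ident: the identity and the main inequality. -/

set_option autoImplicit false

namespace Pool.Agent.BrC

open Matrix MeasureTheory

variable {V : Type*} [Fintype V] [DecidableEq V]

/-- the termwise identity (`a = P i i`, `b = P j j`, `c = P i j`, `e = A i j ∈ {0,1}`) -/
theorem termwise (a b c e : ℝ) (he : e = 0 ∨ e = 1) :
    a * b + c ^ 2 + e - e * (a + b - 2 * c) =
      (e * (1 + c - max a b) ^ 2 + (1 - e) * (c - min a b) ^ 2) + 2 * (c * min a b) +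
      (max (a - b) 0 * (e * (1 - a + 2 * c) + (1 - e) * b) +
        max (b - a) 0 * (e * (1 - b + 2 * c) + (1 - e) * a)) := by
  rcases le_total a b with h | h
  · rw [max_eq_right h, min_eq_left h, max_eq_right (by linarith : a - b ≤ 0),
      max_eq_left (by linarith : 0 ≤ b - a)]
    rcases he with rfl | rfl <;> ring
  · rw [max_eq_left h, min_eq_right h, max_eq_left (by linarith : 0 ≤ a - b),
      max_eq_right (by linarith : b - a ≤ 0)]
    rcases he with rfl | rfl <;> ring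

/-- the main inequality, ordered sums: `P` a projection of trace `k`, `A` a symmetric 0/1 matrix -/
theorem main_ineq {P : Matrix V V ℝ} (hPs : P.IsSymm) (hPP : P * P = P) {k : ℝ}
    (hk : P.trace = k) {A : V → V → ℝ} (hA : ∀ i j, A i j = 0 ∨ A i j = 1)
    (hAs : ∀ i j, A i j = A j i) (hA0 : ∀ i, A i i = 0) :
    ∑ i, ∑ j, A i j * (P i i + P j j - 2 * P i j) ≤ k * (k + 1) + ∑ i, ∑ j, A i j := by
  have hsym : ∀ i j, P i j = P j i := fun i j => (hPs.apply i j).symm
  have hself : ∀ y : V → ℝ, y ⬝ᵥ (P *ᵥ y) = (P *ᵥ y) ⬝ᵥ (P *ᵥ y) := by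
    intro y
    have h1 : (P *ᵥ y) ⬝ᵥ (P *ᵥ y) = y ⬝ᵥ (P *ᵥ (P *ᵥ y)) := by
      rw [Matrix.dotProduct_mulVec, ← Matrix.mulVec_transpose, hPs.eq, dotProduct_comm,
        dotProduct_comm]
    rw [h1, Matrix.mulVec_mulVec, hPP]
  have hP0 : ∀ y : V → ℝ, 0 ≤ y ⬝ᵥ (P *ᵥ y) := by
    intro y
    rw [hself]
    exact Finset.sum_nonneg fun i _ => mul_self_nonneg _
  have hP1 : ∀ y : V → ℝ, y ⬝ᵥ (P *ᵥ y) ≤ y ⬝ᵥ y := by
    intro y
    have h1 : 0 ≤ (y - P *ᵥ y) ⬝ᵥ (y - P *ᵥ y) :=
      Finset.sum_nonneg fun i _ => mul_self_nonneg _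
    have h2 : (y - P *ᵥ y) ⬝ᵥ (y - P *ᵥ y) =
        y ⬝ᵥ y - 2 * (y ⬝ᵥ (P *ᵥ y)) + (P *ᵥ y) ⬝ᵥ (P *ᵥ y) := by
      rw [sub_dotProduct, dotProduct_sub, dotProduct_sub, dotProduct_comm (P *ᵥ y) y]
      ring
    rw [h2, ← hself] at h1
    linarith
  have hA01 : ∀ i j, 0 ≤ A i j ∧ A i j ≤ 1 := by
    intro i j
    rcases hA i j with h | h <;> rw [h] <;> norm_num
  have hint := level_int hP0 hP1 hPs (fun i j => (hA01 i j).1) (fun i j => (hA01 i j).2)
  -- the trace of `P * P`
  have hsq : ∑ i, ∑ j, P i j ^ 2 = k := by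
    rw [← hk, Matrix.trace]
    refine Finset.sum_congr rfl fun i _ => ?_
    have h1 : (P * P) i i = P i i := by rw [hPP]
    rw [Matrix.diag_apply, ← h1, Matrix.mul_apply]
    refine Finset.sum_congr rfl fun j _ => ?_
    rw [hsym j i, sq]
  have hkk : ∑ i, ∑ j, P i i * P j j = k * k := by
    rw [← hk, Matrix.trace, Finset.sum_mul_sum]
    rfl
  -- sum of the termwise identity
  have hterm : ∑ i, ∑ j, (P i i * P j j + P i j ^ 2 + A i j - A i j * (P i i + P j j - 2 * P i j)) =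
      ∑ i, ∑ j, (A i j * (1 + P i j - max (P i i) (P j j)) ^ 2 +
        (1 - A i j) * (P i j - min (P i i) (P j j)) ^ 2) +
      2 * ∑ i, ∑ j, (P i j * min (P i i) (P j j) + max (P i i - P j j) 0 *
      (A i j * (1 - P i i + 2 * P i j) + (1 - A i j) * P j j)) := by
    have h1 : ∑ i, ∑ j, (max (P i i - P j j) 0 *
        (A i j * (1 - P i i + 2 * P i j) + (1 - A i j) * P j j)) =
        ∑ i, ∑ j, (max (P j j - P i i) 0 *
        (A i j * (1 - P j j + 2 * P i j) + (1 - A i j) * P i i)) := by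
      rw [Finset.sum_comm]
      refine Finset.sum_congr rfl fun i _ => Finset.sum_congr rfl fun j _ => ?_
      rw [hAs j i, hsym j i]
    have h2 : 2 * ∑ i, ∑ j, (P i j * min (P i i) (P j j) + max (P i i - P j j) 0 *
        (A i j * (1 - P i i + 2 * P i j) + (1 - A i j) * P j j)) =
        2 * ∑ i, ∑ j, (P i j * min (P i i) (P j j)) +
        (∑ i, ∑ j, (max (P i i - P j j) 0 *
        (A i j * (1 - P i i + 2 * P i j) + (1 - A i j) * P j j)) +
        ∑ i, ∑ j, (max (P j j - P i i) 0 *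
        (A i j * (1 - P j j + 2 * P i j) + (1 - A i j) * P i i))) := by
      rw [← h1]
      simp only [Finset.sum_add_distrib]
      ring
    rw [h2, Finset.mul_sum, ← Finset.sum_add_distrib, ← Finset.sum_add_distrib,
      ← Finset.sum_add_distrib]
    refine Finset.sum_congr rfl fun i _ => ?_
    rw [Finset.mul_sum, ← Finset.sum_add_distrib, ← Finset.sum_add_distrib,
      ← Finset.sum_add_distrib]
    refine Finset.sum_congr rfl fun j _ => ?_
    rw [termwise _ _ _ _ (hA i j)]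
    ring
  have hnn : 0 ≤ ∑ i, ∑ j, (A i j * (1 + P i j - max (P i i) (P j j)) ^ 2 +
        (1 - A i j) * (P i j - min (P i i) (P j j)) ^ 2) := by
    refine Finset.sum_nonneg fun i _ => Finset.sum_nonneg fun j _ => ?_
    have h3 := (hA01 i j).1
    have h4 : 0 ≤ 1 - A i j := by have := (hA01 i j).2; linarith
    positivity
  have hL : ∑ i, ∑ j, (P i i * P j j + P i j ^ 2 + A i j - A i j * (P i i + P j j - 2 * P i j)) =
      k * k + k + ∑ i, ∑ j, A i j - ∑ i, ∑ j, A i j * (P i i + P j j - 2 * P i j) := by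
    rw [← hkk]
    conv_rhs => rw [← hsq]
    simp only [Finset.sum_add_distrib, Finset.sum_sub_distrib]
  rw [hL] at hterm
  linarith

end Pool.Agent.BrC
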