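import Pool.Agent.BrC.SplitT

/-! BrC, module Level: the split inequality for a subset of the vertices. -/

set_option autoImplicit false

namespace Pool.Agent.BrC

open Matrix MeasureTheory

variable {V : Type*} [Fintype V] [DecidableEq V]

omit [DecidableEq V] in
private theorem level_quad (P : Matrix V V ℝ) (p : V → Prop) [DecidablePred p]
    (y : {i // p i} ⊕ {i // ¬ p i} → ℝ) :
    y ⬝ᵥ (P.submatrix (Equiv.sumCompl p) (Equiv.sumCompl p) *ᵥ y) =
      (y ∘ (Equiv.sumCompl p).symm) ⬝ᵥ (P *ᵥ (y ∘ (Equiv.sumCompl p).symm)) := by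
  rw [Matrix.submatrix_mulVec_equiv, _root_.comp_equiv_symm_dotProduct]

omit [DecidableEq V] in
private theorem level_norm (p : V → Prop) [DecidablePred p]
    (y : {i // p i} ⊕ {i // ¬ p i} → ℝ) :
    (y ∘ (Equiv.sumCompl p).symm) ⬝ᵥ (y ∘ (Equiv.sumCompl p).symm) = y ⬝ᵥ y := by
  rw [_root_.comp_equiv_symm_dotProduct]
  congr 1
  funext z
  simp

private theorem level_trace (P : Matrix V V ℝ) (hPs : P.IsSymm) (A : V → V → ℝ)
    (p : V → Prop) [DecidablePred p] :
    (P.submatrix (Equiv.sumCompl p) (Equiv.sumCompl p) *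
      NN (fun (i : {i // p i}) (j : {i // ¬ p i}) => A i j)).trace =
    ∑ i : {i // p i}, ∑ i' : {i // p i}, P i i'
      + ∑ i : {i // p i}, ∑ j : {i // ¬ p i},
        (A i j * (2 * P i j - P i i) + (1 - A i j) * P j j) := by
  have hs : ∀ i j, P i j = P j i := fun i j => by
    have := congrFun (congrFun hPs i) j
    simpa [Matrix.transpose_apply] using this.symm
  have e1 : ∀ i : {i // p i}, ∑ z, (P.submatrix (Equiv.sumCompl p) (Equiv.sumCompl p))
      (Sum.inl i) z * NN (fun (i : {i // p i}) (j : {i // ¬ p i}) => A i j) z (Sum.inl i) =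
      ∑ i' : {i // p i}, P i i' - P i i * ∑ j : {i // ¬ p i}, A i j
        + ∑ j : {i // ¬ p i}, P i j * A i j := by
    intro i
    rw [Fintype.sum_sum_type]
    unfold NN
    simp only [Matrix.fromBlocks_apply₁₁, Matrix.fromBlocks_apply₂₁, Matrix.of_apply,
      Matrix.submatrix_apply, Equiv.sumCompl_apply_inl, Equiv.sumCompl_apply_inr, mul_sub,
      mul_one, mul_ite, mul_zero, Finset.sum_sub_distrib]
    congr 2
    rw [Finset.sum_ite_eq' Finset.univ i]
    simp
  have e2 : ∀ j : {i // ¬ p i}, ∑ z, (P.submatrix (Equiv.sumCompl p) (Equiv.sumCompl p))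
      (Sum.inr j) z * NN (fun (i : {i // p i}) (j : {i // ¬ p i}) => A i j) z (Sum.inr j) =
      ∑ i : {i // p i}, P i j * A i j + ∑ i : {i // p i}, (1 - A i j) * P j j := by
    intro j
    rw [Fintype.sum_sum_type]
    unfold NN
    simp only [Matrix.fromBlocks_apply₁₂, Matrix.fromBlocks_apply₂₂, Matrix.of_apply,
      Matrix.submatrix_apply, Equiv.sumCompl_apply_inl, Equiv.sumCompl_apply_inr,
      Matrix.diagonal_apply, mul_ite, mul_zero]
    congr 1
    · exact Finset.sum_congr rfl fun i _ => by rw [hs j i]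
    · rw [Finset.sum_ite_eq' Finset.univ j]
      simp only [Finset.mem_univ, if_true]
      rw [Finset.mul_sum]
      exact Finset.sum_congr rfl fun i _ => mul_comm _ _
  have e3 : (P.submatrix (Equiv.sumCompl p) (Equiv.sumCompl p) *
      NN (fun (i : {i // p i}) (j : {i // ¬ p i}) => A i j)).trace =
      ∑ i : {i // p i}, ∑ z, (P.submatrix (Equiv.sumCompl p) (Equiv.sumCompl p))
      (Sum.inl i) z * NN (fun (i : {i // p i}) (j : {i // ¬ p i}) => A i j) z (Sum.inl i)
      + ∑ j : {i // ¬ p i}, ∑ z, (P.submatrix (Equiv.sumCompl p) (Equiv.sumCompl p))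
      (Sum.inr j) z * NN (fun (i : {i // p i}) (j : {i // ¬ p i}) => A i j) z (Sum.inr j) := by
    rw [Matrix.trace, Fintype.sum_sum_type]
    rfl
  rw [e3, Finset.sum_congr rfl fun i _ => e1 i, Finset.sum_congr rfl fun j _ => e2 j]
  have e4 : ∑ j : {i // ¬ p i}, (∑ i : {i // p i}, P i j * A i j +
      ∑ i : {i // p i}, (1 - A i j) * P j j) =
      ∑ i : {i // p i}, ∑ j : {i // ¬ p i}, (P i j * A i j + (1 - A i j) * P j j) := by
    rw [Finset.sum_comm]
    exact Finset.sum_congr rfl fun j _ => by rw [Finset.sum_add_distrib]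
  rw [e4, ← Finset.sum_add_distrib, ← Finset.sum_add_distrib]
  refine Finset.sum_congr rfl fun i _ => ?_
  have e5 : ∑ j : {i // ¬ p i}, (A i j * (2 * P i j - P i i) + (1 - A i j) * P j j) =
      2 * ∑ j : {i // ¬ p i}, P i j * A i j - P i i * ∑ j : {i // ¬ p i}, A i j
        + ∑ j : {i // ¬ p i}, (1 - A i j) * P j j := by
    rw [Finset.mul_sum, Finset.mul_sum, ← Finset.sum_sub_distrib, ← Finset.sum_add_distrib]
    exact Finset.sum_congr rfl fun j _ => by ring
  rw [e5, Finset.sum_add_distrib]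
  ring

/-- the split inequality for the subset `{i | p i}` of `V` and weights `A i j ∈ [0,1]` -/
theorem level {P : Matrix V V ℝ} (hP0 : ∀ y, 0 ≤ y ⬝ᵥ (P *ᵥ y))
    (hP1 : ∀ y, y ⬝ᵥ (P *ᵥ y) ≤ y ⬝ᵥ y) (hPs : P.IsSymm) {A : V → V → ℝ}
    (h0 : ∀ i j, 0 ≤ A i j) (h1 : ∀ i j, A i j ≤ 1) (p : V → Prop) [DecidablePred p] :
    0 ≤ ∑ i, ∑ j, (if p i then (if p j then P i j else
      A i j * (1 - P i i + 2 * P i j) + (1 - A i j) * P j j) else 0) := by
  have key := split_trace (σ := {i // p i}) (τ := {i // ¬ p i}) (w := fun i j => A i j)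
    (fun i j => h0 _ _) (fun i j => h1 _ _)
    (P := P.submatrix (Equiv.sumCompl p) (Equiv.sumCompl p))
    (fun y => by rw [level_quad]; exact hP0 _)
    (fun y => by rw [level_quad, ← level_norm p y]; exact hP1 _)
  rw [level_trace P hPs A p] at key
  have e1 : ∑ i, ∑ j, (if p i then (if p j then P i j else
      A i j * (1 - P i i + 2 * P i j) + (1 - A i j) * P j j) else 0) =
      ∑ i : {i // p i}, (∑ j : {i // p i}, P i j + ∑ j : {i // ¬ p i},
        (A i j * (1 - P i i + 2 * P i j) + (1 - A i j) * P j j)) := by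
    rw [← Equiv.sum_comp (Equiv.sumCompl p), Fintype.sum_sum_type]
    have hz : ∑ i : {i // ¬ p i}, ∑ j, (if p ((Equiv.sumCompl p) (Sum.inr i)) then
        (if p j then P ((Equiv.sumCompl p) (Sum.inr i)) j else
        A ((Equiv.sumCompl p) (Sum.inr i)) j * (1 - P ((Equiv.sumCompl p) (Sum.inr i))
          ((Equiv.sumCompl p) (Sum.inr i)) + 2 * P ((Equiv.sumCompl p) (Sum.inr i)) j)
          + (1 - A ((Equiv.sumCompl p) (Sum.inr i)) j) * P j j) else 0) = 0 := by
      refine Finset.sum_eq_zero fun i _ => Finset.sum_eq_zero fun j _ => ?_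
      rw [Equiv.sumCompl_apply_inr, if_neg i.2]
    rw [hz, add_zero]
    refine Finset.sum_congr rfl fun i _ => ?_
    rw [← Equiv.sum_comp (Equiv.sumCompl p), Fintype.sum_sum_type]
    congr 1
    · refine Finset.sum_congr rfl fun j _ => ?_
      rw [Equiv.sumCompl_apply_inl, Equiv.sumCompl_apply_inl, if_pos i.2, if_pos j.2]
    · refine Finset.sum_congr rfl fun j _ => ?_
      rw [Equiv.sumCompl_apply_inl, Equiv.sumCompl_apply_inr, if_pos i.2, if_neg j.2]
  rw [e1, Finset.sum_add_distrib]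
  have e2 : ∑ i : {i // p i}, ∑ j : {i // ¬ p i},
        (A i j * (1 - P i i + 2 * P i j) + (1 - A i j) * P j j) =
      ∑ i : {i // p i}, ∑ j : {i // ¬ p i}, A i j + ∑ i : {i // p i}, ∑ j : {i // ¬ p i},
        (A i j * (2 * P i j - P i i) + (1 - A i j) * P j j) := by
    rw [← Finset.sum_add_distrib]
    refine Finset.sum_congr rfl fun i _ => ?_
    rw [← Finset.sum_add_distrib]
    exact Finset.sum_congr rfl fun j _ => by ring
  rw [e2]
  linarith

end Pool.Agent.BrC
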