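import Pool.Agent.BrC.Level

/-! BrC, module LevelInt: integration over the levels. -/

set_option autoImplicit false

namespace Pool.Agent.BrC

open Matrix MeasureTheory

variable {V : Type*} [Fintype V] [DecidableEq V]

private theorem step_int (c : ℝ) : IntervalIntegrable (fun t : ℝ => if t < c then (1 : ℝ) else 0)
    volume 0 1 := by
  have h : Antitone (fun t : ℝ => if t < c then (1 : ℝ) else 0) := by
    intro a b hab
    dsimp only
    by_cases hb : b < c
    · rw [if_pos hb, if_pos (lt_of_le_of_lt hab hb)]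
    · rw [if_neg hb]; split_ifs <;> norm_num
  exact h.intervalIntegrable

private theorem int_step {c : ℝ} (h0 : 0 ≤ c) (h1 : c ≤ 1) :
    ∫ t in (0 : ℝ)..1, (if t < c then (1 : ℝ) else 0) = c := by
  rw [← intervalIntegral.integral_add_adjacent_intervals (a := 0) (b := c) (c := 1)
    ((step_int c).mono_set ?_) ((step_int c).mono_set ?_)]
  · have e1 : ∫ t in (0 : ℝ)..c, (if t < c then (1 : ℝ) else 0) = ∫ t in (0 : ℝ)..c, (1 : ℝ) := by
      rw [intervalIntegral.integral_of_le h0, intervalIntegral.integral_of_le h0,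
        MeasureTheory.integral_Ioc_eq_integral_Ioo, MeasureTheory.integral_Ioc_eq_integral_Ioo]
      refine setIntegral_congr_fun measurableSet_Ioo fun t ht => ?_
      rw [if_pos ht.2]
    have e2 : ∫ t in c..(1 : ℝ), (if t < c then (1 : ℝ) else 0) = ∫ t in c..(1 : ℝ), (0 : ℝ) := by
      rw [intervalIntegral.integral_of_le h1, intervalIntegral.integral_of_le h1]
      refine setIntegral_congr_fun measurableSet_Ioc fun t ht => ?_
      rw [if_neg (not_lt.2 ht.1.le)]
    rw [e1, e2]; simp
  · rw [Set.uIcc_of_le h0, Set.uIcc_of_le zero_le_one]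
    exact Set.Icc_subset_Icc le_rfl h1
  · rw [Set.uIcc_of_le h1, Set.uIcc_of_le zero_le_one]
    exact Set.Icc_subset_Icc h0 le_rfl

private theorem pair_fun (a b u v t : ℝ) :
    (if t < a then (if t < b then u else v) else 0)
      = (u - v) * (if t < min a b then (1 : ℝ) else 0) + v * (if t < a then (1 : ℝ) else 0) := by
  by_cases ha : t < a
  · by_cases hb : t < b
    · rw [if_pos ha, if_pos hb, if_pos (lt_min ha hb), if_pos ha]; ring
    · rw [if_pos ha, if_neg hb, if_neg (fun h => hb (lt_of_lt_of_le h (min_le_right a b))),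
        if_pos ha]; ring
  · rw [if_neg ha, if_neg (fun h => ha (lt_of_lt_of_le h (min_le_left a b))), if_neg ha]; ring

private theorem pair_ii (a b u v : ℝ) :
    IntervalIntegrable (fun t : ℝ => if t < a then (if t < b then u else v) else 0)
      volume 0 1 := by
  have : (fun t : ℝ => if t < a then (if t < b then u else v) else 0) = fun t =>
      (u - v) * (if t < min a b then (1 : ℝ) else 0) + v * (if t < a then (1 : ℝ) else 0) := by
    funext t; exact pair_fun a b u v t
  rw [this]
  exact ((step_int _).const_mul _).add ((step_int _).const_mul _)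

private theorem pair_int {a b : ℝ} (ha0 : 0 ≤ a) (ha1 : a ≤ 1) (hb0 : 0 ≤ b) (u v : ℝ) :
    ∫ t in (0 : ℝ)..1, (if t < a then (if t < b then u else v) else 0)
      = u * min a b + max (a - b) 0 * v := by
  have : (fun t : ℝ => if t < a then (if t < b then u else v) else 0) = fun t =>
      (u - v) * (if t < min a b then (1 : ℝ) else 0) + v * (if t < a then (1 : ℝ) else 0) := by
    funext t; exact pair_fun a b u v t
  rw [this, intervalIntegral.integral_add ((step_int _).const_mul _) ((step_int _).const_mul _),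
    intervalIntegral.integral_const_mul, intervalIntegral.integral_const_mul,
    int_step (le_min ha0 hb0) (le_trans (min_le_left a b) ha1), int_step ha0 ha1]
  rcases le_total a b with h | h
  · rw [min_eq_left h, max_eq_right (by linarith)]; ring
  · rw [min_eq_right h, max_eq_left (by linarith)]; ring

/-- integration over the levels `t ∈ [0,1]`, `p i = (t < P i i)` (`0 ≤ P i i ≤ 1`) -/
theorem level_int {P : Matrix V V ℝ} (hP0 : ∀ y, 0 ≤ y ⬝ᵥ (P *ᵥ y))
    (hP1 : ∀ y, y ⬝ᵥ (P *ᵥ y) ≤ y ⬝ᵥ y) (hPs : P.IsSymm) {A : V → V → ℝ}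
    (h0 : ∀ i j, 0 ≤ A i j) (h1 : ∀ i j, A i j ≤ 1) :
    0 ≤ ∑ i, ∑ j, (P i j * min (P i i) (P j j) + max (P i i - P j j) 0 *
      (A i j * (1 - P i i + 2 * P i j) + (1 - A i j) * P j j)) := by
  have hd : ∀ i, Pi.single i (1 : ℝ) ⬝ᵥ (P *ᵥ Pi.single i (1 : ℝ)) = P i i := by
    intro i; simp
  have hd0 : ∀ i, 0 ≤ P i i := fun i => by rw [← hd i]; exact hP0 _
  have hd1 : ∀ i, P i i ≤ 1 := fun i => by
    rw [← hd i]
    refine (hP1 _).trans ?_
    simp
  have key : ∫ t in (0 : ℝ)..1, (∑ i, ∑ j, (if t < P i i then (if t < P j j then P i j else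
      A i j * (1 - P i i + 2 * P i j) + (1 - A i j) * P j j) else 0))
      = ∑ i, ∑ j, (P i j * min (P i i) (P j j) + max (P i i - P j j) 0 *
      (A i j * (1 - P i i + 2 * P i j) + (1 - A i j) * P j j)) := by
    rw [intervalIntegral.integral_finsetSum]
    · refine Finset.sum_congr rfl fun i _ => ?_
      rw [intervalIntegral.integral_finsetSum]
      · refine Finset.sum_congr rfl fun j _ => ?_
        exact pair_int (hd0 i) (hd1 i) (hd0 j) _ _
      · intro j _
        exact pair_ii _ _ _ _
    · intro i _
      have := IntervalIntegrable.sum (Finset.univ) (f := fun j => fun t : ℝ =>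
        (if t < P i i then (if t < P j j then P i j else
          A i j * (1 - P i i + 2 * P i j) + (1 - A i j) * P j j) else 0))
        (a := 0) (b := 1) (μ := volume) (fun j _ => pair_ii _ _ _ _)
      simpa [Finset.sum_fn] using this
  rw [← key]
  refine intervalIntegral.integral_nonneg zero_le_one fun t _ => ?_
  exact level hP0 hP1 hPs h0 h1 (fun i => t < P i i)

end Pool.Agent.BrC
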