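import Pool.Agent.BrC.Fin2

/-! BrC, module SplitT: the split graph inequality. -/

set_option autoImplicit false

namespace Pool.Agent.BrC

open Matrix

variable {σ τ : Type*} [Fintype σ] [Fintype τ] [DecidableEq σ] [DecidableEq τ]

/-- the sum of the negative eigenvalues; cases A and B of the text -/
theorem neg_sum [Nonempty σ] [Nonempty τ] {w : σ → τ → ℝ} (h0 : ∀ i j, 0 ≤ w i j)
    (h1 : ∀ i j, w i j ≤ 1) {v0 : σ ⊕ τ} {x : σ ⊕ τ → σ ⊕ τ → ℝ} {ν : σ ⊕ τ → ℝ}
    (hE : ESys w v0 x ν) : -(∑ i, ∑ j, w i j) ≤ ∑ v, min (ν v) 0 := by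
  classical
  have hs : (0 : ℝ) < Fintype.card σ := by exact_mod_cast Fintype.card_pos
  have hv0 : 0 < ν v0 := by rw [hE.top]; exact hs
  set Kn : Finset (σ ⊕ τ) := Finset.univ.filter fun v => ν v < 0 with hKn
  set Kz : Finset (σ ⊕ τ) := Finset.univ.filter fun v => ν v ≤ 0 with hKz
  set Kp : Finset (σ ⊕ τ) := Finset.univ.filter fun v => v ≠ v0 ∧ 0 < ν v with hKp
  have hnz : Kn ⊆ Kz := by
    intro v hv
    rw [hKn, Finset.mem_filter] at hv
    rw [hKz, Finset.mem_filter]
    exact ⟨hv.1, hv.2.le⟩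
  have hcn : Kn.card ≤ Fintype.card σ :=
    card_neg h1 hE.orth hE.eig Kn fun v hv => by
      rw [hKn, Finset.mem_filter] at hv
      exact hv.2
  have hcp : Kp.card ≤ Fintype.card τ :=
    card_pos h0 hE.orth hE.eig Kp
      (fun v hv => by
        rw [hKp, Finset.mem_filter] at hv
        exact hv.2.2)
      (fun v hv => by
        rw [hKp, Finset.mem_filter] at hv
        exact hE.sum0 v hv.2.1)
  by_cases hA : Fintype.card σ ≤ Kz.card
  · obtain ⟨K, hK1, hK2, hK3⟩ := Finset.exists_subsuperset_card_eq hnz hcn hA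
    have hv : v0 ∉ K := by
      intro h
      have := hK2 h
      rw [hKz, Finset.mem_filter] at this
      linarith [this.2]
    refine (compound_fin h0 h1 hE hK3 hv).trans ?_
    have e1 : ∑ v ∈ K, ν v = ∑ v ∈ K, min (ν v) 0 := by
      refine Finset.sum_congr rfl fun v hv => ?_
      have := hK2 hv
      rw [hKz, Finset.mem_filter] at this
      rw [min_eq_left this.2]
    have e2 : ∑ v ∈ K, min (ν v) 0 = ∑ v, min (ν v) 0 := by
      apply Finset.sum_subset (Finset.subset_univ K)
      intro v _ hvK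
      have : ¬ ν v < 0 := by
        intro h
        apply hvK
        apply hK1
        rw [hKn, Finset.mem_filter]
        exact ⟨Finset.mem_univ _, h⟩
      rw [min_eq_right (not_lt.mp this)]
    rw [e1, e2]
  · push Not at hA
    have hcard : Kz.card + Kp.card + 1 = Fintype.card σ + Fintype.card τ := by
      have e1 : Kz.card + (Finset.univ.filter fun v => ¬ ν v ≤ 0).card =
          Fintype.card (σ ⊕ τ) := by
        rw [hKz, Finset.card_filter_add_card_filter_not]
        exact Finset.card_univ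
      have e2 : (Finset.univ.filter fun v => ¬ ν v ≤ 0) = insert v0 Kp := by
        ext v
        rw [Finset.mem_insert, hKp, Finset.mem_filter, Finset.mem_filter]
        constructor
        · rintro ⟨-, h⟩
          by_cases hv : v = v0
          · exact Or.inl hv
          · exact Or.inr ⟨Finset.mem_univ _, hv, not_le.mp h⟩
        · rintro (rfl | ⟨-, -, h⟩)
          · exact ⟨Finset.mem_univ _, not_le.mpr hv0⟩
          · exact ⟨Finset.mem_univ _, not_le.mpr h⟩
      have e3 : v0 ∉ Kp := by
        rw [hKp, Finset.mem_filter]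
        rintro ⟨-, h, -⟩
        exact h rfl
      rw [e2, Finset.card_insert_of_notMem e3, Fintype.card_sum] at e1
      omega
    have hKpc : Kp.card = Fintype.card τ := by omega
    have hv : v0 ∉ Kp := by
      rw [hKp, Finset.mem_filter]
      rintro ⟨-, h, -⟩
      exact h rfl
    have e4 := compound_fin' h0 h1 hE hKpc hv
    have e5 := sum_nu hE.orth hE.eig
    have e6 : ∑ v, ν v = ∑ v, min (ν v) 0 + ∑ v, max (ν v) 0 := by
      rw [← Finset.sum_add_distrib]
      refine Finset.sum_congr rfl fun v _ => ?_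
      rw [min_add_max, add_zero]
    have e7 : ∑ v, max (ν v) 0 = Fintype.card σ + ∑ v ∈ Kp, ν v := by
      have e8 : ∑ v ∈ insert v0 Kp, max (ν v) 0 = ∑ v, max (ν v) 0 := by
        apply Finset.sum_subset (Finset.subset_univ _)
        intro v _ hvK
        rw [Finset.mem_insert, not_or, hKp, Finset.mem_filter] at hvK
        have : ¬ 0 < ν v := fun h => hvK.2 ⟨Finset.mem_univ _, hvK.1, h⟩
        rw [max_eq_right (not_lt.mp this)]
      rw [← e8, Finset.sum_insert hv, max_eq_left hv0.le, hE.top]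
      congr 1
      refine Finset.sum_congr rfl fun v hv => ?_
      rw [hKp, Finset.mem_filter] at hv
      rw [max_eq_left hv.2.2.le]
    linarith

/-- `0 ≤ P ≤ 1`: `trace (P N) ≥ -∑ w` (`τ` or `σ` may be empty) -/
theorem split_trace {w : σ → τ → ℝ} (h0 : ∀ i j, 0 ≤ w i j) (h1 : ∀ i j, w i j ≤ 1)
    {P : Matrix (σ ⊕ τ) (σ ⊕ τ) ℝ} (hP0 : ∀ y, 0 ≤ y ⬝ᵥ (P *ᵥ y))
    (hP1 : ∀ y, y ⬝ᵥ (P *ᵥ y) ≤ y ⬝ᵥ y) :
    -(∑ i, ∑ j, w i j) ≤ (P * NN w).trace := by
  rcases isEmpty_or_nonempty σ with hσ | hσ
  · have e1 : NN w = 0 := by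
      ext u v
      rcases u with i | j
      · exact hσ.elim i
      · rcases v with i | j'
        · exact hσ.elim i
        · unfold NN
          rw [fromBlocks_apply₂₂, diagonal_apply]
          simp
    rw [e1, Matrix.mul_zero, trace_zero]
    simp
  rcases isEmpty_or_nonempty τ with hτ | hτ
  · have e1 : (P * NN w).trace = (fun _ => (1 : ℝ)) ⬝ᵥ (P *ᵥ fun _ => 1) := by
      rw [trace, dotProduct]
      refine Finset.sum_congr rfl fun u _ => ?_
      rw [diag_apply, mul_apply, mulVec, dotProduct, one_mul]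
      refine Finset.sum_congr rfl fun v _ => ?_
      congr 1
      rcases v with i | j
      · rcases u with i' | j
        · unfold NN
          rw [fromBlocks_apply₁₁, of_apply]
          simp
        · exact hτ.elim j
      · exact hτ.elim j
    rw [e1]
    simpa using hP0 fun _ => 1
  · have : Nonempty (σ ⊕ τ) := ⟨Sum.inl hσ.some⟩
    obtain ⟨v0, x, ν, hE⟩ := esys (σ := σ) (τ := τ) h0
    refine (neg_sum h0 h1 hE).trans ?_
    rw [trace_eig hE.orth hE.eig]
    refine Finset.sum_le_sum fun v _ => ?_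
    have e1 := hP0 (x v)
    have e2 := hP1 (x v)
    rw [hE.orth v v, if_pos rfl] at e2
    rcases le_total (ν v) 0 with h | h
    · rw [min_eq_left h]
      nlinarith
    · rw [min_eq_right h]
      exact mul_nonneg h e1

end Pool.Agent.BrC
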